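import Pool.Agent.Helper7.BC.Base

/-! [BC-6] `altSum` as a sum over invariant subsets.

`altSum i π = ∑ u : Fin i → D, t u`, `t u = ∑ τ with π ∘ u = u ∘ τ, sign τ`.
If `u` is not injective (`u a = u b`, `a ≠ b`), `τ ↦ swap a b * τ` is a sign-reversing fixed-point-free involution of
`{τ : π ∘ u = u ∘ τ}` (`u ∘ swap a b = u`), so `t u = 0` (`Finset.sum_involution`).
If `u` is injective with range `B`: there is a `τ` iff `π` maps `B` to `B`, it is unique, and its sign is the sign of
`π` on `B` (`u` is an equivalence `Fin i ≃ B`; `Equiv.Perm.sign_permCongr`). For each `B` with `i` elements there are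
`i!` injective `u` with range `B` (`Fintype.card_equiv` / `Fintype.card_embedding_eq`, or `Equiv (Fin i) B`). -/

namespace Pool.Agent.Helper7.BC

open Finset

/-- The sign of `π` on the set `B`, zero if `B` is not invariant. -/
def signOn {D : Type*} [Fintype D] [DecidableEq D] (π : Equiv.Perm D) (B : Finset D) : ℤ :=
  if h : ∀ x, π x ∈ B ↔ x ∈ B then ((Equiv.Perm.sign (π.subtypePerm (p := (· ∈ B)) h) : ℤˣ) : ℤ)
  else 0

/-- The contribution of `u`. -/
private def tU {D : Type*} [Fintype D] [DecidableEq D] {i : ℕ} (π : Equiv.Perm D)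
    (u : Fin i → D) : ℤ :=
  ∑ τ ∈ (univ : Finset (Equiv.Perm (Fin i))).filter (fun τ : Equiv.Perm (Fin i) => π ∘ u = u ∘ τ),
    ((Equiv.Perm.sign τ : ℤˣ) : ℤ)

private theorem altSum_eq_sum {D : Type*} [Fintype D] [DecidableEq D] (i : ℕ)
    (π : Equiv.Perm D) : altSum i π = ∑ u : Fin i → D, tU π u := by
  unfold altSum tU
  simp_rw [Finset.card_filter, Finset.sum_filter]
  rw [Finset.sum_comm]
  refine Finset.sum_congr rfl fun τ _ => ?_
  push_cast
  rw [Finset.mul_sum]
  refine Finset.sum_congr rfl fun u _ => ?_
  split_ifs <;> simp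

private theorem tU_not_inj {D : Type*} [Fintype D] [DecidableEq D] {i : ℕ} (π : Equiv.Perm D)
    (u : Fin i → D) (hu : ¬ Function.Injective u) : tU π u = 0 := by
  unfold Function.Injective at hu
  push Not at hu
  obtain ⟨a, b, hab, hne⟩ := hu
  have hsw : u ∘ (Equiv.swap a b) = u := by
    funext x
    simp only [Function.comp_apply]
    by_cases hxa : x = a
    · subst hxa; rw [Equiv.swap_apply_left, hab]
    · by_cases hxb : x = b
      · subst hxb; rw [Equiv.swap_apply_right, hab]
      · rw [Equiv.swap_apply_of_ne_of_ne hxa hxb]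
  unfold tU
  refine Finset.sum_involution (fun τ _ => Equiv.swap a b * τ) ?_ ?_ ?_ ?_
  · intro τ _
    rw [Equiv.Perm.sign_mul, Equiv.Perm.sign_swap hne]
    simp
  · intro τ _ _ h
    have h1 : Equiv.swap a b = 1 := by
      have := mul_right_cancel (a := Equiv.swap a b) (b := τ) (c := 1) (by rw [h, one_mul])
      exact this
    have h2 : Equiv.swap a b a = a := by rw [h1]; rfl
    rw [Equiv.swap_apply_left] at h2
    exact hne h2.symm
  · intro τ hτ
    rw [Finset.mem_filter] at hτ ⊢
    refine ⟨Finset.mem_univ _, ?_⟩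
    rw [hτ.2, Equiv.Perm.coe_mul, ← Function.comp_assoc, hsw]
  · intro τ _
    rw [← mul_assoc, Equiv.swap_mul_self, one_mul]

private theorem tU_inj {D : Type*} [Fintype D] [DecidableEq D] {i : ℕ} (π : Equiv.Perm D)
    (u : Fin i → D) (hu : Function.Injective u) : tU π u = signOn π (univ.image u) := by
  classical
  unfold signOn tU
  by_cases h : ∀ x, π x ∈ univ.image u ↔ x ∈ univ.image u
  · rw [dif_pos h]
    have hbij : Function.Bijective
        (fun a => (⟨u a, Finset.mem_image_of_mem u (Finset.mem_univ a)⟩ :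
          {x // x ∈ univ.image u})) := by
      constructor
      · intro a b hab
        exact hu (congrArg Subtype.val hab)
      · rintro ⟨x, hx⟩
        obtain ⟨a, _, ha⟩ := Finset.mem_image.1 hx
        exact ⟨a, Subtype.ext ha⟩
    let e : Fin i ≃ {x // x ∈ univ.image u} := Equiv.ofBijective _ hbij
    have he : ∀ a, ((e a : {x // x ∈ univ.image u}) : D) = u a := fun a => rfl
    let ρ : Equiv.Perm {x // x ∈ univ.image u} := π.subtypePerm (p := (· ∈ univ.image u)) h
    let τ0 : Equiv.Perm (Fin i) := e.symm.permCongr ρ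
    have hτ0 : ∀ a, u (τ0 a) = π (u a) := by
      intro a
      have h1 : τ0 a = e.symm (ρ (e a)) := by
        simp [τ0, Equiv.permCongr_apply]
      rw [h1, ← he, Equiv.apply_symm_apply]
      rfl
    have hfil : (univ : Finset (Equiv.Perm (Fin i))).filter (fun τ : Equiv.Perm (Fin i) => π ∘ u = u ∘ τ) = {τ0} := by
      ext τ
      rw [Finset.mem_filter, Finset.mem_singleton]
      constructor
      · rintro ⟨_, hτ⟩
        apply Equiv.ext
        intro a
        apply hu
        rw [hτ0]
        exact (congrFun hτ a).symm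
      · rintro rfl
        refine ⟨Finset.mem_univ _, ?_⟩
        funext a
        exact (hτ0 a).symm
    rw [hfil, Finset.sum_singleton]
    have hs : Equiv.Perm.sign τ0 = Equiv.Perm.sign ρ := Equiv.Perm.sign_permCongr _ _
    rw [hs]
  · rw [dif_neg h]
    have hfil : (univ : Finset (Equiv.Perm (Fin i))).filter (fun τ : Equiv.Perm (Fin i) => π ∘ u = u ∘ τ) = ∅ := by
      rw [Finset.filter_eq_empty_iff]
      intro τ _ hτ
      apply h
      have hτ' : ∀ a, π (u a) = u (τ a) := fun a => congrFun hτ a
      intro x
      constructor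
      · intro hx
        obtain ⟨a, _, ha⟩ := Finset.mem_image.1 hx
        have : π x = π (u (τ.symm a)) := by rw [hτ', Equiv.apply_symm_apply, ha]
        rw [π.injective this]
        exact Finset.mem_image_of_mem u (Finset.mem_univ _)
      · intro hx
        obtain ⟨a, _, ha⟩ := Finset.mem_image.1 hx
        rw [← ha, hτ']
        exact Finset.mem_image_of_mem u (Finset.mem_univ _)
    rw [hfil, Finset.sum_empty]

private theorem card_inj {D : Type*} [Fintype D] [DecidableEq D] (i : ℕ) (B : Finset D)
    (hB : B.card = i) :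
    (((univ : Finset (Fin i → D)).filter fun u => Function.Injective u).filter
      fun u => univ.image u = B).card = i.factorial := by
  classical
  have h1 : Fintype.card (Fin i ≃ {x // x ∈ B}) = i.factorial := by
    have e : Fin i ≃ {x // x ∈ B} :=
      (Fintype.equivFinOfCardEq (by rw [Fintype.card_coe, hB])).symm
    rw [Fintype.card_equiv e, Fintype.card_fin]
  rw [← h1, ← Finset.card_univ]
  symm
  refine Finset.card_bij (fun e _ => fun a => ((e a : {x // x ∈ B}) : D)) ?_ ?_ ?_
  · intro e _
    rw [Finset.mem_filter, Finset.mem_filter]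
    refine ⟨⟨Finset.mem_univ _, ?_⟩, ?_⟩
    · intro a b hab
      exact e.injective (Subtype.ext hab)
    · ext x
      rw [Finset.mem_image]
      constructor
      · rintro ⟨a, _, rfl⟩
        exact (e a).2
      · intro hx
        exact ⟨e.symm ⟨x, hx⟩, Finset.mem_univ _, by rw [Equiv.apply_symm_apply]⟩
  · intro e _ e' _ h
    apply Equiv.ext
    intro a
    exact Subtype.ext (congrFun h a)
  · intro u hu
    rw [Finset.mem_filter, Finset.mem_filter] at hu
    obtain ⟨⟨_, hinj⟩, him⟩ := hu
    have hm : ∀ a, u a ∈ B := fun a => by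
      rw [← him]; exact Finset.mem_image_of_mem u (Finset.mem_univ a)
    have hbij : Function.Bijective (fun a => (⟨u a, hm a⟩ : {x // x ∈ B})) := by
      constructor
      · intro a b hab
        exact hinj (congrArg Subtype.val hab)
      · rintro ⟨x, hx⟩
        rw [← him] at hx
        obtain ⟨a, _, ha⟩ := Finset.mem_image.1 hx
        exact ⟨a, Subtype.ext ha⟩
    exact ⟨Equiv.ofBijective _ hbij, Finset.mem_univ _, rfl⟩

theorem altSum_eq_signOn {D : Type*} [Fintype D] [DecidableEq D] (i : ℕ) (π : Equiv.Perm D) :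
    altSum i π = (i.factorial : ℤ) * ∑ B ∈ powersetCard i (univ : Finset D), signOn π B := by
  classical
  rw [altSum_eq_sum]
  have h1 : ∑ u : Fin i → D, tU π u
      = ∑ u ∈ (univ : Finset (Fin i → D)).filter (fun u => Function.Injective u), tU π u := by
    rw [Finset.sum_filter]
    refine Finset.sum_congr rfl fun u _ => ?_
    split_ifs with hu
    · rfl
    · exact tU_not_inj π u hu
  rw [h1]
  have hmaps : ∀ u ∈ (univ : Finset (Fin i → D)).filter (fun u => Function.Injective u),
      univ.image u ∈ powersetCard i (univ : Finset D) := by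
    intro u hu
    rw [Finset.mem_filter] at hu
    rw [Finset.mem_powersetCard]
    refine ⟨Finset.subset_univ _, ?_⟩
    rw [Finset.card_image_of_injective _ hu.2, Finset.card_univ, Fintype.card_fin]
  rw [← Finset.sum_fiberwise_of_maps_to hmaps, Finset.mul_sum]
  refine Finset.sum_congr rfl fun B hB => ?_
  have hBc : B.card = i := (Finset.mem_powersetCard.1 hB).2
  rw [← card_inj i B hBc, Finset.cast_card, Finset.sum_mul]
  refine Finset.sum_congr rfl fun u hu => ?_
  rw [Finset.mem_filter, Finset.mem_filter] at hu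
  rw [one_mul, tU_inj π u hu.1.2, hu.2]

end Pool.Agent.Helper7.BC
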