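import Pool.Agent.Helper7.BC.Defs

/-! Internal definitions of project BC (MP_52073a_co). -/

namespace Pool.Agent.Helper7.BC

open Finset

/-- Functions of `i + 1` vertices `w 0, ..., w i`. -/
abbrev WFun (k : Type*) (n i : ℕ) := (Fin (i + 1) → Vtx n) → k

/-- `w 0` is far from all the others. -/
def IsStar {n i : ℕ} (r : ℕ) (w : Fin (i + 1) → Vtx n) : Prop :=
  ∀ a, a ≠ 0 → r < hammingDist (w 0) (w a)

section
variable (k : Type*) [Field k] (n r i : ℕ)

/-- Cycles: alternating in the last `i` arguments, and antisymmetric when the first argument is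
exchanged with a near one. -/
def ZZ : Submodule k (WFun k n i) where
  carrier := {f | (∀ (w : Fin (i + 1) → Vtx n) (a b : Fin (i + 1)), a ≠ 0 → b ≠ 0 → a ≠ b →
      f (w ∘ Equiv.swap a b) = -f w) ∧
    ∀ (w : Fin (i + 1) → Vtx n) (a : Fin (i + 1)), a ≠ 0 → hammingDist (w 0) (w a) ≤ r →
      f (w ∘ Equiv.swap 0 a) = -f w}
  add_mem' := by
    rintro f g ⟨hf, hf'⟩ ⟨hg, hg'⟩
    refine ⟨fun w a b ha hb hab => ?_, fun w a ha h => ?_⟩
    · simp only [Pi.add_apply, hf w a b ha hb hab, hg w a b ha hb hab]; ring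
    · simp only [Pi.add_apply, hf' w a ha h, hg' w a ha h]; ring
  zero_mem' := ⟨fun _ _ _ _ _ _ => by simp, fun _ _ _ _ => by simp⟩
  smul_mem' := by
    rintro c f ⟨hf, hf'⟩
    refine ⟨fun w a b ha hb hab => ?_, fun w a ha h => ?_⟩
    · simp only [Pi.smul_apply, smul_eq_mul, hf w a b ha hb hab]; ring
    · simp only [Pi.smul_apply, smul_eq_mul, hf' w a ha h]; ring

/-- Boundaries: alternating in all arguments. -/
def BB : Submodule k (WFun k n i) where
  carrier := {f | ∀ (w : Fin (i + 1) → Vtx n) (a b : Fin (i + 1)), a ≠ b →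
      f (w ∘ Equiv.swap a b) = -f w}
  add_mem' := by
    intro f g hf hg w a b hab
    simp only [Pi.add_apply, hf w a b hab, hg w a b hab]; ring
  zero_mem' := fun _ _ _ _ => by simp
  smul_mem' := by
    intro c f hf w a b hab
    simp only [Pi.smul_apply, smul_eq_mul, hf w a b hab]; ring

/-- The model of Tor: alternating in the last `i` arguments, supported on stars. -/
def AA : Submodule k (WFun k n i) where
  carrier := {f | (∀ (w : Fin (i + 1) → Vtx n) (a b : Fin (i + 1)), a ≠ 0 → b ≠ 0 → a ≠ b →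
      f (w ∘ Equiv.swap a b) = -f w) ∧
    ∀ (w : Fin (i + 1) → Vtx n), ¬ IsStar r w → f w = 0}
  add_mem' := by
    rintro f g ⟨hf, hf'⟩ ⟨hg, hg'⟩
    refine ⟨fun w a b ha hb hab => ?_, fun w h => ?_⟩
    · simp only [Pi.add_apply, hf w a b ha hb hab, hg w a b ha hb hab]; ring
    · simp only [Pi.add_apply, hf' w h, hg' w h, add_zero]
  zero_mem' := ⟨fun _ _ _ _ _ _ => by simp, fun _ _ => rfl⟩
  smul_mem' := by
    rintro c f ⟨hf, hf'⟩
    refine ⟨fun w a b ha hb hab => ?_, fun w h => ?_⟩
    · simp only [Pi.smul_apply, smul_eq_mul, hf w a b ha hb hab]; ring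
    · simp only [Pi.smul_apply, smul_eq_mul, hf' w h, mul_zero]

open Classical in
/-- On stars: `f (w) + f (w with w 0 and w 1 exchanged)`. -/
noncomputable def psi : WFun k n i →ₗ[k] WFun k n i where
  toFun f := fun w => if IsStar r w then f w + f (w ∘ Equiv.swap 0 1) else 0
  map_add' f g := by
    funext w
    simp only [Pi.add_apply]
    split_ifs
    · ring
    · simp
  map_smul' c f := by
    funext w
    simp only [Pi.smul_apply, smul_eq_mul, RingHom.id_apply]
    split_ifs
    · ring
    · simp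

/-- The action of `g` on functions of `i + 1` vertices. -/
def actW (g : Equiv.Perm (Vtx n)) : WFun k n i →ₗ[k] WFun k n i where
  toFun f := fun w => f (g.symm ∘ w)
  map_add' _ _ := rfl
  map_smul' _ _ := rfl

variable {n} in
theorem isStar_comp (g : Equiv.Perm (Vtx n)) (hg : ∀ a b, hammingDist (g a) (g b) = hammingDist a b)
    (w : Fin (i + 1) → Vtx n) : IsStar r (g.symm ∘ w) ↔ IsStar r w := by
  have h : ∀ a b, hammingDist (g.symm a) (g.symm b) = hammingDist a b := fun a b => by
    rw [← hg, g.apply_symm_apply, g.apply_symm_apply]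
  simp only [IsStar, Function.comp_apply, h]

variable {n} in
theorem actW_mem (g : Equiv.Perm (Vtx n)) (hg : ∀ a b, hammingDist (g a) (g b) = hammingDist a b)
    (f : WFun k n i) (hf : f ∈ AA k n r i) : actW k n i g f ∈ AA k n r i :=
  ⟨fun w a b ha hb hab => hf.1 (g.symm ∘ w) a b ha hb hab,
    fun w h => hf.2 _ (fun h' => h ((isStar_comp r i g hg w).1 h'))⟩

variable {n} in
/-- The action of `g` on the model. -/
def actA (g : Equiv.Perm (Vtx n)) (hg : ∀ a b, hammingDist (g a) (g b) = hammingDist a b) :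
    AA k n r i →ₗ[k] AA k n r i :=
  (actW k n i g).restrict (actW_mem k r i g hg)

end

/-- What is needed about sets of `i + 1` vertices: they are not the union of two sets with at least
two elements which are far apart, and for `i = 2` no three vertices are pairwise far apart. -/
def Good (n r i : ℕ) : Prop :=
  2 ≤ i ∧
  (∀ A B : Finset (Vtx n), (∀ a ∈ A, ∀ b ∈ B, r < hammingDist a b) → 2 ≤ A.card → 2 ≤ B.card →
    A.card + B.card ≠ i + 1) ∧
  (i = 2 → ∀ a b c : Vtx n, ¬ (r < hammingDist a b ∧ r < hammingDist b c ∧ r < hammingDist a c))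

/-- `i!` times the trace of `π` on the `i`-th exterior power of the permutation module `k^D`. -/
def altSum {D : Type*} [Fintype D] [DecidableEq D] (i : ℕ) (π : Equiv.Perm D) : ℤ :=
  ∑ τ : Equiv.Perm (Fin i), (Equiv.Perm.sign τ : ℤ) *
    (((univ : Finset (Fin i → D)).filter fun u => π ∘ u = u ∘ τ).card : ℤ)

/-- The same for `g` on the set of vertices far from `v`. -/
def altSumAt {n : ℕ} (r i : ℕ) (g : Equiv.Perm (Vtx n)) (v : Vtx n) : ℤ :=
  ∑ τ : Equiv.Perm (Fin i), (Equiv.Perm.sign τ : ℤ) *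
    (((univ : Finset (Fin i → Vtx n)).filter fun u =>
      (∀ j, r < hammingDist v (u j)) ∧ g ∘ u = u ∘ τ).card : ℤ)

end Pool.Agent.Helper7.BC
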