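import Pool.Agent.Helper7.BC.KoszulTor

/-! The two descriptions of Tor agree by definition. -/

namespace Pool.Agent.Helper7.BC

theorem cycSub_eq (k : Type*) [Field k] (n r i j : ℕ) :
    (Koszul.cycSub k n r (i + 1) j : Submodule k (Fun k n (i + 1))) = Cycles k n r (i + 1) j := rfl

theorem chi_eq (k : Type*) [Field k] (n r i j : ℕ) (σ : Equiv.Perm (Fin n))
    (e : Fin n → Bool) :
    Koszul.chi k n r (i + 1) j σ e = bettiChar k n r (i + 1) j σ e := rfl

theorem finrank_eq (k : Type*) [Field k] (n r i j : ℕ) :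
    Module.finrank k (Koszul.Tor k n r (i + 1) j) = Module.finrank k (Tor k n r (i + 1) j) := rfl

end Pool.Agent.Helper7.BC
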