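import Pool.Agent.Helper7.BC.Defs

/-! [BC-1] Cross-diameter bound.

`ball_card`: number of Boolean vectors at distance at most `s` from `a`.

`cross_one` (induction on `n`; no `AntiDiagonal` tricks needed). Write `V(n,s) = ∑ j ∈ range (s+1), C(n,j)`.
If all cross distances are `≤ s`, `s ≤ n - 1`, `A, B` nonempty, then `|A| + |B| ≤ 1 + V(n,s)`.
`s = 0`: all elements are equal, `|A| = |B| = 1`, `V(n,0) = 1`. Let `s ≥ 1` (so `n ≥ 2`), split by the first
coordinate (`Fin.cons`): `A = A0 + A1`, `B = B0 + B1`, all in the cube of dimension `n - 1`.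
Cross distances: `A0-B0`, `A1-B1`: `≤ s`; `A0-B1`, `A1-B0`: `≤ s - 1`.
* all four nonempty: induction (dimension `n-1`, radius `s-1 ≤ n-2`) twice:
  `|A0|+|B1| ≤ 1+V(n-1,s-1)`, `|A1|+|B0| ≤ 1+V(n-1,s-1)`; the sum is
  `2 + 2V(n-1,s-1) = 2 + V(n,s) - C(n-1,s) ≤ 1 + V(n,s)` because `s ≤ n-1`
  (Pascal: `V(n,s) = V(n-1,s) + V(n-1,s-1)`, `V(n-1,s) = V(n-1,s-1) + C(n-1,s)`).
* one of the four is empty; by symmetry (flip the coordinate; exchange `A` and `B`) `A1` is empty, so `A0` is not.
  If `B1` is nonempty: `|A0|+|B1| ≤ 1+V(n-1,s-1)` by induction and `|B0| ≤ V(n-1,s)` (`B0` is in the ball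
  of radius `s` around any point of `A0`, `ball_card`); the sum is `1 + V(n,s)`.
  If `B1` is empty (then `B0` is not): if `s ≤ n-2`, induction gives `1+V(n-1,s) ≤ 1+V(n,s)`; if `s = n-1`,
  `|A0|+|B0| ≤ 2^(n-1) + 2^(n-1) = 2^n = 1 + V(n,n-1)`.
(It may be easier to prove first an abstract statement for four sets `A0 A1 B0 B1` of the smaller cube.) -/

namespace Pool.Agent.Helper7.BC

open Finset

private theorem card_le_sets (n s : ℕ) :
    ((univ : Finset (Finset (Fin n))).filter fun T => T.card ≤ s).card
      = ∑ j ∈ range (s + 1), n.choose j := by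
  classical
  rw [Finset.card_eq_sum_card_fiberwise (f := fun T : Finset (Fin n) => T.card)
    (t := range (s + 1))]
  · refine Finset.sum_congr rfl fun j hj => ?_
    have h1 : ((univ : Finset (Finset (Fin n))).filter fun T => T.card ≤ s).filter
        (fun T => T.card = j) = powersetCard j (univ : Finset (Fin n)) := by
      ext T
      rw [Finset.mem_filter, Finset.mem_filter, Finset.mem_powersetCard]
      rw [Finset.mem_range] at hj
      constructor
      · rintro ⟨_, h⟩
        exact ⟨Finset.subset_univ _, h⟩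
      · rintro ⟨_, h⟩
        exact ⟨⟨Finset.mem_univ _, by omega⟩, h⟩
    rw [h1, Finset.card_powersetCard, Finset.card_univ, Fintype.card_fin]
  · intro T hT
    simp only [Finset.coe_filter, Finset.mem_univ, true_and, Set.mem_ofPred_eq, Finset.coe_range,
      Set.mem_Iio] at hT ⊢
    omega

theorem ball_card (n s : ℕ) (a : Vtx n) :
    ((univ : Finset (Vtx n)).filter fun b => hammingDist a b ≤ s).card
      = ∑ j ∈ range (s + 1), n.choose j := by
  classical
  rw [← card_le_sets n s]
  refine Finset.card_bij (fun b _ => (univ : Finset (Fin n)).filter fun x => a x ≠ b x) ?_ ?_ ?_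
  · intro b hb
    rw [Finset.mem_filter] at hb ⊢
    exact ⟨Finset.mem_univ _, hb.2⟩
  · intro b _ b' _ h
    funext x
    have hx : (a x ≠ b x) ↔ (a x ≠ b' x) := by
      have := Finset.ext_iff.1 h x
      simpa only [Finset.mem_filter, Finset.mem_univ, true_and] using this
    revert hx
    cases a x <;> cases b x <;> cases b' x <;> simp
  · intro T hT
    rw [Finset.mem_filter] at hT
    have hval : ((univ : Finset (Fin n)).filter
        fun x => a x ≠ (xor (a x) (decide (x ∈ T)))) = T := by
      ext x
      rw [Finset.mem_filter]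
      by_cases hx : x ∈ T
      · cases a x <;> simp [hx]
      · cases a x <;> simp [hx]
    refine ⟨fun x => xor (a x) (decide (x ∈ T)), ?_, hval⟩
    rw [Finset.mem_filter]
    refine ⟨Finset.mem_univ _, ?_⟩
    unfold hammingDist
    rw [hval]
    exact hT.2

/-- The size of a ball. -/
private def V (n s : ℕ) : ℕ := ∑ j ∈ range (s + 1), n.choose j

private theorem V_succ (n t : ℕ) : V n (t + 1) = V n t + n.choose (t + 1) := by
  unfold V
  rw [Finset.sum_range_succ]

private theorem V_pascal (n t : ℕ) : V (n + 1) (t + 1) = V n (t + 1) + V n t := by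
  induction t with
  | zero =>
    simp [V, Finset.sum_range_succ]
    ring
  | succ t ih =>
    rw [V_succ (n + 1) (t + 1), ih, V_succ n (t + 1), Nat.choose_succ_succ n (t + 1)]
    rw [V_succ n t]
    ring

private theorem V_full (n : ℕ) : V n n = 2 ^ n := by
  unfold V
  exact Nat.sum_range_choose n

private theorem card_sub_ball {n s : ℕ} (A B : Finset (Vtx n)) (hA : A.Nonempty)
    (h : ∀ a ∈ A, ∀ b ∈ B, hammingDist a b ≤ s) : B.card ≤ V n s := by
  classical
  obtain ⟨a, ha⟩ := hA
  unfold V
  rw [← ball_card n s a]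
  apply Finset.card_le_card
  intro b hb
  rw [Finset.mem_filter]
  exact ⟨Finset.mem_univ _, h a ha b hb⟩

private theorem card_le_two_pow {n : ℕ} (A : Finset (Vtx n)) : A.card ≤ 2 ^ n := by
  have := Finset.card_le_univ A
  simpa using this

private theorem step2 {n t : ℕ} (ht : t + 1 ≤ n)
    (ih : ∀ s, s + 1 ≤ n → ∀ A B : Finset (Vtx n), A.Nonempty → B.Nonempty →
      (∀ a ∈ A, ∀ b ∈ B, hammingDist a b ≤ s) → A.card + B.card ≤ 1 + V n s)
    (A0 B0 B1 : Finset (Vtx n)) (hA0 : A0.Nonempty) (hB : B0.Nonempty ∨ B1.Nonempty)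
    (h00 : ∀ a ∈ A0, ∀ b ∈ B0, hammingDist a b ≤ t + 1)
    (h01 : ∀ a ∈ A0, ∀ b ∈ B1, hammingDist a b ≤ t) :
    A0.card + B0.card + B1.card ≤ 1 + V (n + 1) (t + 1) := by
  rw [V_pascal]
  by_cases hB1 : B1.Nonempty
  · have h1 := ih t ht A0 B1 hA0 hB1 h01
    have h2 := card_sub_ball A0 B0 hA0 h00
    omega
  · have hB0 : B0.Nonempty := hB.resolve_right hB1
    have hB1' : B1.card = 0 := by
      rw [Finset.not_nonempty_iff_eq_empty] at hB1
      rw [hB1, Finset.card_empty]
    by_cases hn : t + 2 ≤ n
    · have h1 := ih (t + 1) hn A0 B0 hA0 hB0 h00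
      omega
    · have hn' : n = t + 1 := by omega
      have h1 := card_le_two_pow A0
      have h2 := card_le_two_pow B0
      have h3 : V n (t + 1) = 2 ^ n := by rw [← hn']; exact V_full n
      have h4 : V n (t + 1) = V n t + 1 := by
        rw [V_succ, ← hn', Nat.choose_self]
      omega

private theorem step4 {n t : ℕ} (ht : t + 1 ≤ n)
    (ih : ∀ s, s + 1 ≤ n → ∀ A B : Finset (Vtx n), A.Nonempty → B.Nonempty →
      (∀ a ∈ A, ∀ b ∈ B, hammingDist a b ≤ s) → A.card + B.card ≤ 1 + V n s)
    (A0 A1 B0 B1 : Finset (Vtx n)) (hA : A0.Nonempty ∨ A1.Nonempty)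
    (hB : B0.Nonempty ∨ B1.Nonempty)
    (h00 : ∀ a ∈ A0, ∀ b ∈ B0, hammingDist a b ≤ t + 1)
    (h11 : ∀ a ∈ A1, ∀ b ∈ B1, hammingDist a b ≤ t + 1)
    (h01 : ∀ a ∈ A0, ∀ b ∈ B1, hammingDist a b ≤ t)
    (h10 : ∀ a ∈ A1, ∀ b ∈ B0, hammingDist a b ≤ t) :
    (A0.card + A1.card) + (B0.card + B1.card) ≤ 1 + V (n + 1) (t + 1) := by
  have hempty : ∀ C : Finset (Vtx n), ¬ C.Nonempty → C.card = 0 := fun C hC => by
    rw [Finset.not_nonempty_iff_eq_empty] at hC
    rw [hC, Finset.card_empty]
  by_cases hA0 : A0.Nonempty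
  · by_cases hA1 : A1.Nonempty
    · by_cases hB0 : B0.Nonempty
      · by_cases hB1 : B1.Nonempty
        · have h1 := ih t ht A0 B1 hA0 hB1 h01
          have h2 := ih t ht A1 B0 hA1 hB0 h10
          rw [V_pascal, V_succ]
          have h3 : 0 < n.choose (t + 1) := Nat.choose_pos ht
          omega
        · have h1 := step2 ht ih B0 A0 A1 hB0 hA
            (fun b hb a ha => by rw [hammingDist_comm]; exact h00 a ha b hb)
            (fun b hb a ha => by rw [hammingDist_comm]; exact h10 a ha b hb)
          have h2 := hempty B1 hB1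
          omega
      · have hB1 : B1.Nonempty := hB.resolve_left hB0
        have h1 := step2 ht ih B1 A1 A0 hB1 hA.symm
          (fun b hb a ha => by rw [hammingDist_comm]; exact h11 a ha b hb)
          (fun b hb a ha => by rw [hammingDist_comm]; exact h01 a ha b hb)
        have h2 := hempty B0 hB0
        omega
    · have h1 := step2 ht ih A0 B0 B1 hA0 hB h00 h01
      have h2 := hempty A1 hA1
      omega
  · have hA1 : A1.Nonempty := hA.resolve_left hA0
    have h1 := step2 ht ih A1 B1 B0 hA1 hB.symm h11 h10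
    have h2 := hempty A0 hA0
    omega

private theorem dist_cons {n : ℕ} (x y : Bool) (u v : Vtx n) :
    hammingDist (Fin.cons x u : Vtx (n + 1)) (Fin.cons y v)
      = (if x ≠ y then 1 else 0) + hammingDist u v := by
  unfold hammingDist
  rw [Finset.card_filter, Finset.card_filter, Fin.sum_univ_succ]
  simp only [Fin.cons_zero, Fin.cons_succ]

/-- The part of `A` in the half-cube `x`. -/
private def half {n : ℕ} (x : Bool) (A : Finset (Vtx (n + 1))) : Finset (Vtx n) :=
  (univ : Finset (Vtx n)).filter fun v => (Fin.cons x v : Vtx (n + 1)) ∈ A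

private theorem mem_half {n : ℕ} {x : Bool} {A : Finset (Vtx (n + 1))} {v : Vtx n} :
    v ∈ half x A ↔ (Fin.cons x v : Vtx (n + 1)) ∈ A := by
  unfold half
  rw [Finset.mem_filter]
  exact ⟨fun h => h.2, fun h => ⟨Finset.mem_univ _, h⟩⟩

private theorem half_card {n : ℕ} (A : Finset (Vtx (n + 1))) :
    A.card = (half false A).card + (half true A).card := by
  classical
  have h1 : A = (half false A).image (fun v => (Fin.cons false v : Vtx (n + 1))) ∪
      (half true A).image (fun v => (Fin.cons true v : Vtx (n + 1))) := by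
    ext w
    rw [Finset.mem_union, Finset.mem_image, Finset.mem_image]
    constructor
    · intro hw
      have hw' : (Fin.cons (w 0) (Fin.tail w) : Vtx (n + 1)) = w := Fin.cons_self_tail w
      cases hx : w 0 with
      | false =>
        left
        refine ⟨Fin.tail w, ?_, ?_⟩
        · rw [mem_half, ← hx, hw']; exact hw
        · rw [← hx, hw']
      | true =>
        right
        refine ⟨Fin.tail w, ?_, ?_⟩
        · rw [mem_half, ← hx, hw']; exact hw
        · rw [← hx, hw']
    · rintro (⟨v, hv, rfl⟩ | ⟨v, hv, rfl⟩)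
      · exact mem_half.1 hv
      · exact mem_half.1 hv
  have h2 : Disjoint ((half false A).image (fun v => (Fin.cons false v : Vtx (n + 1))))
      ((half true A).image (fun v => (Fin.cons true v : Vtx (n + 1)))) := by
    rw [Finset.disjoint_left]
    intro w hw hw'
    rw [Finset.mem_image] at hw hw'
    obtain ⟨v, _, rfl⟩ := hw
    obtain ⟨v', _, h⟩ := hw'
    have := congrFun h 0
    simp at this
  conv_lhs => rw [h1]
  rw [Finset.card_union_of_disjoint h2, Finset.card_image_of_injective,
    Finset.card_image_of_injective]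
  · intro v v' h
    exact Fin.cons_right_injective (α := fun _ => Bool) true h
  · intro v v' h
    exact Fin.cons_right_injective (α := fun _ => Bool) false h

private theorem half_nonempty {n : ℕ} {A : Finset (Vtx (n + 1))} (hA : A.Nonempty) :
    (half false A).Nonempty ∨ (half true A).Nonempty := by
  rcases Finset.eq_empty_or_nonempty (half false A) with h | h
  · right
    rw [← Finset.card_pos]
    have h1 := half_card A
    rw [h, Finset.card_empty, zero_add] at h1
    rw [← h1]
    exact Finset.card_pos.2 hA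
  · exact Or.inl h

private theorem cross_aux (n : ℕ) : ∀ s, s + 1 ≤ n → ∀ A B : Finset (Vtx n), A.Nonempty →
    B.Nonempty → (∀ a ∈ A, ∀ b ∈ B, hammingDist a b ≤ s) → A.card + B.card ≤ 1 + V n s := by
  induction n with
  | zero => intro s hs; omega
  | succ n ih =>
    intro s hs A B hA hB h
    cases s with
    | zero =>
      have hone : ∀ C D : Finset (Vtx (n + 1)), D.Nonempty →
          (∀ c ∈ C, ∀ d ∈ D, hammingDist c d ≤ 0) → C.card ≤ 1 := by
        intro C D hD hCD
        obtain ⟨d, hd⟩ := hD
        rw [Finset.card_le_one]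
        intro c hc c' hc'
        have h1 := hCD c hc d hd
        have h2 := hCD c' hc' d hd
        rw [Nat.le_zero, hammingDist_eq_zero] at h1 h2
        rw [h1, h2]
      have h1 := hone A B hB h
      have h2 := hone B A hA (fun b hb a ha => by rw [hammingDist_comm]; exact h a ha b hb)
      have h3 : V (n + 1) 0 = 1 := by simp [V]
      omega
    | succ t =>
      rw [half_card A, half_card B]
      refine step4 (by omega) ih (half false A) (half true A) (half false B) (half true B)
        (half_nonempty hA) (half_nonempty hB) ?_ ?_ ?_ ?_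
      · intro a ha b hb
        have := h _ (mem_half.1 ha) _ (mem_half.1 hb)
        rw [dist_cons] at this
        simpa using this
      · intro a ha b hb
        have := h _ (mem_half.1 ha) _ (mem_half.1 hb)
        rw [dist_cons] at this
        simpa using this
      · intro a ha b hb
        have := h _ (mem_half.1 ha) _ (mem_half.1 hb)
        rw [dist_cons] at this
        simp at this
        omega
      · intro a ha b hb
        have := h _ (mem_half.1 ha) _ (mem_half.1 hb)
        rw [dist_cons] at this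
        simp at this
        omega

theorem cross_one (n s : ℕ) (hs : s + 1 ≤ n) (A B : Finset (Vtx n)) (hA : A.Nonempty)
    (hB : B.Nonempty) (h : ∀ a ∈ A, ∀ b ∈ B, hammingDist a b ≤ s) :
    A.card + B.card ≤ 1 + ∑ j ∈ range (s + 1), n.choose j :=
  cross_aux n s hs A B hA hB h

end Pool.Agent.Helper7.BC
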