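import Pool.Agent.Helper7.BC.AltSum

/-! [BC-7] The signed number of invariant subsets with `i` elements.

`∑ B, signOn π B * X^|B| = ∏ over cycles (1 - (-X)^l)`. One way: let `C = π.cycleFactorsFinset`, `E` = fixed points.
Invariant `B` correspond to pairs (subset `S` of `C`, subset `T` of `E`): `B = (⋃ c ∈ S, c.support) ∪ T`, and
`sign (π on B) = ∏ c ∈ S, sign c`, `sign c = -(-1)^|c.support|` (`Equiv.Perm.IsCycle.sign`), so the sum is
`∏ c ∈ C, (1 + sign c * X^|c.support|) * (1 + X)^|E|` (`Finset.prod_one_add`, `Finset.prod_add`), and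
`π.partition.parts = π.cycleType + replicate (card D - support.card) 1`, `cycleType = C.val.map (card ∘ support)`.
Another way: induction `Equiv.Perm.cycle_induction_on π` on a statement for `π` on `D` (base `1`, a cycle,
disjoint product `σ * τ` with `σ` a cycle), or induction on the number of orbits: remove one orbit `O` of `π` from
the ambient set (generalise to invariant ambient subsets `U` of `D`): the invariant subsets of `U` are those of
`U \ O` with or without `O`. Use whatever is shortest. `cyclePoly_one`: `signOn 1 B = 1`, or directly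
`(1 + X)^card`. -/

namespace Pool.Agent.Helper7.BC

open Finset

section
variable {D : Type*} [Fintype D] [DecidableEq D]

private def Inv (π : Equiv.Perm D) (B : Finset D) : Prop := ∀ x, π x ∈ B ↔ x ∈ B

private theorem signOn_of_not {π : Equiv.Perm D} {B : Finset D} (h : ¬ Inv π B) :
    signOn π B = 0 := dif_neg h

private theorem signOn_eq {π r : Equiv.Perm D} {B : Finset D} (h : Inv π B)
    (h1 : ∀ x ∈ B, r x = π x) (h2 : ∀ x, x ∉ B → r x = x) :
    signOn π B = ((Equiv.Perm.sign r : ℤˣ) : ℤ) := by
  have h' : ∀ x, π x ∈ B ↔ x ∈ B := h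
  unfold signOn
  rw [dif_pos h', ← Equiv.Perm.sign_ofSubtype]
  congr 2
  ext x
  by_cases hx : x ∈ B
  · rw [Equiv.Perm.ofSubtype_apply_of_mem _ hx, h1 x hx]
    rfl
  · rw [Equiv.Perm.ofSubtype_apply_of_not_mem _ hx, h2 x hx]

omit [Fintype D] in
private theorem exists_perm {π : Equiv.Perm D} {B : Finset D} (h : Inv π B) :
    ∃ r : Equiv.Perm D, (∀ x ∈ B, r x = π x) ∧ (∀ x, x ∉ B → r x = x) := by
  refine ⟨Equiv.Perm.ofSubtype (π.subtypePerm (p := (· ∈ B)) h), fun x hx => ?_, fun x hx => ?_⟩
  · rw [Equiv.Perm.ofSubtype_apply_of_mem _ hx]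
    rfl
  · rw [Equiv.Perm.ofSubtype_apply_of_not_mem _ hx]

private theorem signOn_union {π : Equiv.Perm D} {U₁ U₂ B₁ B₂ : Finset D} (hU₁ : Inv π U₁)
    (hU₂ : Inv π U₂) (hd : Disjoint U₁ U₂) (h₁ : B₁ ⊆ U₁) (h₂ : B₂ ⊆ U₂) :
    signOn π (B₁ ∪ B₂) = signOn π B₁ * signOn π B₂ := by
  have hd' : ∀ x, x ∈ U₁ → x ∉ U₂ := fun x hx hx' => Finset.disjoint_left.1 hd hx hx'
  by_cases hB₁ : Inv π B₁
  · by_cases hB₂ : Inv π B₂
    · obtain ⟨r₁, a1, b1⟩ := exists_perm hB₁
      obtain ⟨r₂, a2, b2⟩ := exists_perm hB₂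
      have hB : Inv π (B₁ ∪ B₂) := fun x => by
        rw [Finset.mem_union, Finset.mem_union, hB₁ x, hB₂ x]
      rw [signOn_eq (r := r₁) hB₁ a1 b1, signOn_eq (r := r₂) hB₂ a2 b2,
        signOn_eq (r := r₁ * r₂) hB, Equiv.Perm.sign_mul]
      · push_cast
        rfl
      · intro x hx
        rw [Equiv.Perm.mul_apply]
        rcases Finset.mem_union.1 hx with hx | hx
        · rw [b2 x (fun h => hd' x (h₁ hx) (h₂ h)), a1 x hx]
        · rw [a2 x hx, b1 (π x) (fun h => hd' (π x) (h₁ h) (h₂ ((hB₂ x).2 hx)))]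
      · intro x hx
        rw [Finset.mem_union, not_or] at hx
        rw [Equiv.Perm.mul_apply, b2 x hx.2, b1 x hx.1]
    · rw [signOn_of_not hB₂, mul_zero, signOn_of_not]
      intro hB
      refine hB₂ fun x => ⟨fun h => ?_, fun h => ?_⟩
      · have hx := (hU₂ x).1 (h₂ h)
        rcases Finset.mem_union.1 ((hB x).1 (Finset.mem_union_right _ h)) with h' | h'
        · exact absurd hx (hd' x (h₁ h'))
        · exact h'
      · have hx := (hU₂ x).2 (h₂ h)
        rcases Finset.mem_union.1 ((hB x).2 (Finset.mem_union_right _ h)) with h' | h'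
        · exact absurd hx (hd' _ (h₁ h'))
        · exact h'
  · rw [signOn_of_not hB₁, zero_mul, signOn_of_not]
    intro hB
    refine hB₁ fun x => ⟨fun h => ?_, fun h => ?_⟩
    · have hx := (hU₁ x).1 (h₁ h)
      rcases Finset.mem_union.1 ((hB x).1 (Finset.mem_union_left _ h)) with h' | h'
      · exact h'
      · exact absurd (h₂ h') (hd' _ hx)
    · have hx := (hU₁ x).2 (h₁ h)
      rcases Finset.mem_union.1 ((hB x).2 (Finset.mem_union_left _ h)) with h' | h'
      · exact h'
      · exact absurd (h₂ h') (hd' _ hx)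

private noncomputable def SS (π : Equiv.Perm D) (U : Finset D) : Polynomial ℤ :=
  ∑ B ∈ U.powerset, Polynomial.C (signOn π B) * Polynomial.X ^ B.card

private theorem SS_union {π : Equiv.Perm D} {U₁ U₂ : Finset D} (hU₁ : Inv π U₁)
    (hU₂ : Inv π U₂) (hd : Disjoint U₁ U₂) : SS π (U₁ ∪ U₂) = SS π U₁ * SS π U₂ := by
  unfold SS
  rw [Finset.sum_mul_sum, ← Finset.sum_product']
  symm
  refine Finset.sum_bij' (fun p _ => p.1 ∪ p.2) (fun B _ => (B ∩ U₁, B ∩ U₂)) ?_ ?_ ?_ ?_ ?_
  · rintro ⟨B₁, B₂⟩ h
    rw [Finset.mem_product, Finset.mem_powerset, Finset.mem_powerset] at h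
    exact Finset.mem_powerset.2 (Finset.union_subset_union h.1 h.2)
  · intro B _
    rw [Finset.mem_product, Finset.mem_powerset, Finset.mem_powerset]
    exact ⟨Finset.inter_subset_right, Finset.inter_subset_right⟩
  · rintro ⟨B₁, B₂⟩ h
    rw [Finset.mem_product, Finset.mem_powerset, Finset.mem_powerset] at h
    have hd' : ∀ x, x ∈ U₁ → x ∉ U₂ := fun x hx hx' => Finset.disjoint_left.1 hd hx hx'
    refine Prod.ext ?_ ?_
    · ext x
      simp only [Finset.mem_inter, Finset.mem_union]
      constructor
      · rintro ⟨h1 | h1, h2⟩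
        · exact h1
        · exact absurd (h.2 h1) (hd' x h2)
      · exact fun h1 => ⟨Or.inl h1, h.1 h1⟩
    · ext x
      simp only [Finset.mem_inter, Finset.mem_union]
      constructor
      · rintro ⟨h1 | h1, h2⟩
        · exact absurd h2 (hd' x (h.1 h1))
        · exact h1
      · exact fun h1 => ⟨Or.inr h1, h.2 h1⟩
  · intro B hB
    rw [Finset.mem_powerset] at hB
    change B ∩ U₁ ∪ B ∩ U₂ = B
    rw [← Finset.inter_union_distrib_left]
    exact Finset.inter_eq_left.2 hB
  · rintro ⟨B₁, B₂⟩ h
    rw [Finset.mem_product, Finset.mem_powerset, Finset.mem_powerset] at h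
    change Polynomial.C (signOn π B₁) * Polynomial.X ^ B₁.card *
      (Polynomial.C (signOn π B₂) * Polynomial.X ^ B₂.card) =
      Polynomial.C (signOn π (B₁ ∪ B₂)) * Polynomial.X ^ (B₁ ∪ B₂).card
    rw [signOn_union hU₁ hU₂ hd h.1 h.2, Finset.card_union_of_disjoint
      (Finset.disjoint_of_subset_left h.1 (Finset.disjoint_of_subset_right h.2 hd)), map_mul,
      pow_add]
    ring

private theorem SS_empty (π : Equiv.Perm D) : SS π ∅ = 1 := by
  unfold SS
  rw [Finset.powerset_empty, Finset.sum_singleton, Finset.card_empty, pow_zero, mul_one,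
    signOn_eq (r := 1) (fun x => by simp) (fun x hx => by simp at hx) (fun x _ => rfl)]
  simp

private theorem SS_biUnion {ι : Type*} [DecidableEq ι] (π : Equiv.Perm D) (f : ι → Finset D)
    (s : Finset ι) (hf : ∀ i ∈ s, Inv π (f i))
    (hd : ∀ i ∈ s, ∀ j ∈ s, i ≠ j → Disjoint (f i) (f j)) :
    Inv π (s.biUnion f) ∧ SS π (s.biUnion f) = ∏ i ∈ s, SS π (f i) := by
  induction s using Finset.induction_on with
  | empty => exact ⟨fun x => by simp, by rw [Finset.biUnion_empty, SS_empty, Finset.prod_empty]⟩
  | insert a s ha ih =>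
    obtain ⟨h1, h2⟩ := ih (fun i hi => hf i (Finset.mem_insert_of_mem hi))
      (fun i hi j hj => hd i (Finset.mem_insert_of_mem hi) j (Finset.mem_insert_of_mem hj))
    have h3 : Inv π (f a) := hf a (Finset.mem_insert_self _ _)
    have h4 : Disjoint (f a) (s.biUnion f) := by
      rw [Finset.disjoint_biUnion_right]
      intro i hi
      exact hd a (Finset.mem_insert_self _ _) i (Finset.mem_insert_of_mem hi)
        (fun h => ha (h ▸ hi))
    rw [Finset.biUnion_insert, SS_union h3 h1 h4, h2, Finset.prod_insert ha]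
    refine ⟨fun x => ?_, rfl⟩
    rw [Finset.mem_union, Finset.mem_union, h3 x, h1 x]

private theorem SS_cycle {π c : Equiv.Perm D} (hc : c ∈ π.cycleFactorsFinset) :
    Inv π c.support ∧ SS π c.support = 1 - (-Polynomial.X) ^ c.support.card := by
  have h0 := Equiv.Perm.mem_cycleFactorsFinset_iff.1 hc
  have hI : Inv π c.support := by
    intro x
    constructor
    · intro h
      by_contra hx
      have h1 : π x ≠ x := fun h2 => hx (h2 ▸ h)
      -- x is in the support of π; use surjectivity
      obtain ⟨y, hy⟩ := c.surjective (π x)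
      have hy' : y ∈ c.support := by
        rw [← Equiv.Perm.apply_mem_support, hy]
        exact h
      have h3 : π y = π x := by rw [← h0.2 y hy', hy]
      exact hx (π.injective h3 ▸ hy')
    · intro h
      rw [← h0.2 x h, Equiv.Perm.apply_mem_support]
      exact h
  refine ⟨hI, ?_⟩
  have hne : c.support.Nonempty := h0.1.nonempty_support
  have hs : signOn π c.support = -(-1) ^ c.support.card := by
    rw [signOn_eq (r := c) hI (fun x hx => h0.2 x hx) (fun x hx => Equiv.Perm.notMem_support.1 hx),
      h0.1.sign]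
    push_cast
    rfl
  have he : signOn π (∅ : Finset D) = 1 := by
    rw [signOn_eq (r := 1) (fun x => by simp) (fun x hx => by simp at hx) (fun x _ => rfl)]
    simp
  have hother : ∀ B ∈ c.support.powerset, B ∉ ({∅, c.support} : Finset (Finset D)) →
      Polynomial.C (signOn π B) * Polynomial.X ^ B.card = 0 := by
    intro B hB hB'
    rw [Finset.mem_powerset] at hB
    rw [Finset.mem_insert, Finset.mem_singleton, not_or] at hB'
    rw [signOn_of_not, map_zero, zero_mul]
    intro hi
    obtain ⟨x, hx⟩ := Finset.nonempty_iff_ne_empty.2 hB'.1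
    refine hB'.2 (Finset.Subset.antisymm hB fun y hy => ?_)
    obtain ⟨n, hn⟩ := h0.1.exists_pow_eq (Equiv.Perm.mem_support.1 (hB hx))
      (Equiv.Perm.mem_support.1 hy)
    rw [← hn]
    have : ∀ n : ℕ, (c ^ n) x ∈ B := by
      intro n
      induction n with
      | zero => exact hx
      | succ n ih =>
        rw [pow_succ', Equiv.Perm.mul_apply, h0.2 _ (hB ih), hi]
        exact ih
    exact this n
  have hne' : (∅ : Finset D) ≠ c.support := fun h => by rw [← h] at hne; simp at hne
  unfold SS
  rw [← Finset.sum_subset (s₁ := {∅, c.support}) ?_ hother, Finset.sum_pair hne', he, hs]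
  · rw [Finset.card_empty, pow_zero, map_one, mul_one, map_neg, map_pow, map_neg, map_one,
      neg_mul, ← mul_pow, neg_one_mul, sub_eq_add_neg]
  · intro B hB
    rw [Finset.mem_insert, Finset.mem_singleton] at hB
    rw [Finset.mem_powerset]
    rcases hB with rfl | rfl
    · exact Finset.empty_subset _
    · exact Finset.Subset.refl _

private theorem SS_fixed {π : Equiv.Perm D} {x : D} (hx : π x = x) :
    Inv π {x} ∧ SS π {x} = 1 + Polynomial.X := by
  have hI : Inv π {x} := by
    intro y
    rw [Finset.mem_singleton, Finset.mem_singleton]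
    constructor
    · intro h
      exact π.injective (h.trans hx.symm)
    · rintro rfl
      exact hx
  refine ⟨hI, ?_⟩
  have h1 : signOn π {x} = 1 := by
    rw [signOn_eq (r := 1) hI (fun y hy => ?_) (fun y _ => rfl)]
    · simp
    · rw [Finset.mem_singleton] at hy
      rw [hy, hx]
      rfl
  have he : signOn π (∅ : Finset D) = 1 := by
    rw [signOn_eq (r := 1) (fun x => by simp) (fun x hx => by simp at hx) (fun x _ => rfl)]
    simp
  have h2 : ({x} : Finset D).powerset = {∅, {x}} := by
    ext B
    rw [Finset.mem_powerset, Finset.subset_singleton_iff, Finset.mem_insert, Finset.mem_singleton]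
  unfold SS
  rw [h2, Finset.sum_pair (Finset.singleton_ne_empty x).symm, he, h1]
  simp

private theorem SS_univ (π : Equiv.Perm D) : SS π univ = cyclePoly π := by
  classical
  have h1 := SS_biUnion π (fun c : Equiv.Perm D => c.support) π.cycleFactorsFinset
    (fun c hc => (SS_cycle hc).1) (fun c hc d hd hcd => Equiv.Perm.disjoint_iff_disjoint_support.1
      (Equiv.Perm.cycleFactorsFinset_pairwise_disjoint π hc hd hcd))
  have h2 := SS_biUnion π (fun x : D => ({x} : Finset D)) (π.supportᶜ)
    (fun x hx => (SS_fixed (Equiv.Perm.notMem_support.1 (Finset.mem_compl.1 hx))).1)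
    (fun x _ y _ hxy => Finset.disjoint_singleton.2 hxy)
  have h3 : π.cycleFactorsFinset.biUnion (fun c : Equiv.Perm D => c.support) = π.support := by
    ext x
    rw [Finset.mem_biUnion, Equiv.Perm.mem_support_iff_mem_support_of_mem_cycleFactorsFinset]
  have h4 : (π.supportᶜ).biUnion (fun x : D => ({x} : Finset D)) = π.supportᶜ :=
    Finset.biUnion_singleton_eq_self
  rw [h3] at h1
  rw [h4] at h2
  rw [← Finset.union_compl π.support, SS_union h1.1 h2.1 disjoint_compl_right, h1.2, h2.2]
  unfold cyclePoly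
  rw [Equiv.Perm.parts_partition, Multiset.map_add, Multiset.prod_add, Equiv.Perm.cycleType_def,
    Multiset.map_map, Multiset.map_replicate, Multiset.prod_replicate]
  congr 1
  · rw [Finset.prod_congr rfl (fun c hc => (SS_cycle hc).2)]
    rfl
  · rw [Finset.prod_congr rfl (fun x hx => (SS_fixed (Equiv.Perm.notMem_support.1
      (Finset.mem_compl.1 hx))).2), Finset.prod_const, Finset.card_compl]
    congr 1
    ring

end

theorem sum_signOn {D : Type*} [Fintype D] [DecidableEq D] (i : ℕ) (π : Equiv.Perm D) :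
    ∑ B ∈ powersetCard i (univ : Finset D), signOn π B = (cyclePoly π).coeff i := by
  rw [← SS_univ]
  unfold SS
  rw [Polynomial.finsetSum_coeff]
  simp_rw [Polynomial.coeff_C_mul, Polynomial.coeff_X_pow]
  rw [Finset.powersetCard_eq_filter, Finset.sum_filter]
  refine Finset.sum_congr rfl fun B _ => ?_
  by_cases h : B.card = i
  · rw [if_pos h, if_pos h.symm, mul_one]
  · rw [if_neg h, if_neg (Ne.symm h), mul_zero]

theorem cyclePoly_one {D : Type*} [Fintype D] [DecidableEq D] (i : ℕ) :
    (cyclePoly (1 : Equiv.Perm D)).coeff i = ((Fintype.card D).choose i : ℤ) := by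
  unfold cyclePoly
  rw [Equiv.Perm.parts_partition, Equiv.Perm.cycleType_one, zero_add, Equiv.Perm.support_one,
    Finset.card_empty, tsub_zero, Multiset.map_replicate, Multiset.prod_replicate, pow_one,
    sub_neg_eq_add, Polynomial.coeff_one_add_X_pow]

end Pool.Agent.Helper7.BC
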