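import Mathlib

/-! Koszul model of the graded pieces of Tor for the Stanley-Reisner ring of the Vietoris-Rips
complex of the hypercube at scale `r`, with the action of the signed permutations.

Everything is over a field `k` (used in characteristic zero). -/

namespace Pool.Agent.Helper7.BC

open Finset

/-- The vertices of the hypercube. -/
abbrev Vtx (n : ℕ) : Type := Fin n → Bool

/-- The monomial with exponent vector `m` is not in the Stanley-Reisner ideal: any two vertices
of its support are at distance at most `r`. -/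
def IsFace {n : ℕ} (r : ℕ) (m : Vtx n → ℕ) : Prop :=
  ∀ u v, m u ≠ 0 → m v ≠ 0 → hammingDist u v ≤ r

/-- Functions `F (u, m)`, standing for the sum over all `u`, `m` of
`F (u, m) / i! * e_(u 0) ∧ ... ∧ e_(u (i-1)) ⊗ x^m` . -/
abbrev Fun (k : Type*) (n i : ℕ) := (Fin i → Vtx n) → (Vtx n → ℕ) → k

section
variable (k : Type*) [Field k] (n r : ℕ)

/-- The degree `j` part of `Λ^i (k^V) ⊗ k[x]/I` (the `e_v` have degree one): alternating in `u`,
supported on exponents `m` of degree `j - i` outside the ideal. -/
def Chain (i j : ℕ) : Submodule k (Fun k n i) where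
  carrier := {F | (∀ (τ : Equiv.Perm (Fin i)) (u : Fin i → Vtx n) (m : Vtx n → ℕ),
      F (u ∘ τ) m = ((Equiv.Perm.sign τ : ℤ) : k) * F u m) ∧
    ∀ (u : Fin i → Vtx n) (m : Vtx n → ℕ), F u m ≠ 0 → i + ∑ v, m v = j ∧ IsFace r m}
  add_mem' := by
    rintro F G ⟨hF, hF'⟩ ⟨hG, hG'⟩
    refine ⟨fun τ u m => ?_, fun u m h => ?_⟩
    · simp only [Pi.add_apply, hF τ u m, hG τ u m, mul_add]
    · by_cases h1 : F u m = 0
      · by_cases h2 : G u m = 0
        · exact absurd (by simp [h1, h2]) h
        · exact hG' u m h2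
      · exact hF' u m h1
  zero_mem' := ⟨fun _ _ _ => by simp, fun _ _ h => absurd rfl h⟩
  smul_mem' := by
    rintro c F ⟨hF, hF'⟩
    refine ⟨fun τ u m => ?_, fun u m h => ?_⟩
    · simp only [Pi.smul_apply, smul_eq_mul, hF τ u m]; ring
    · refine hF' u m fun h0 => h ?_
      simp [h0]

open Classical in
/-- The Koszul differential: `e_w` is replaced by `x_w`, modulo the ideal. -/
noncomputable def kd (i : ℕ) : Fun k n (i + 1) →ₗ[k] Fun k n i where
  toFun F := fun u m => if IsFace r m then
    ∑ w : Vtx n, (if m w = 0 then 0 else F (Fin.cons w u) (m - Pi.single w 1)) else 0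
  map_add' F G := by
    funext u m
    simp only [Pi.add_apply]
    split_ifs
    · rw [← Finset.sum_add_distrib]
      refine Finset.sum_congr rfl fun w _ => ?_
      split_ifs <;> simp
    · simp
  map_smul' c F := by
    funext u m
    simp only [Pi.smul_apply, smul_eq_mul, RingHom.id_apply]
    split_ifs
    · rw [Finset.mul_sum]
      refine Finset.sum_congr rfl fun w _ => ?_
      split_ifs <;> simp
    · simp

/-- Cycles of degree `j` in homological degree `i`. -/
noncomputable def Cycles : (i j : ℕ) → Submodule k (Fun k n i)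
  | 0, j => Chain k n r 0 j
  | i + 1, j => Chain k n r (i + 1) j ⊓ LinearMap.ker (kd k n r i)

/-- Boundaries of degree `j` in homological degree `i`. -/
noncomputable def Bdry (i j : ℕ) : Submodule k (Fun k n i) :=
  (Chain k n r (i + 1) j).map (kd k n r i)

/-- The degree `j` part of `Tor_i (k[x]/I, k)`. -/
abbrev Tor (i j : ℕ) : Type _ := Cycles k n r i j ⧸ (Bdry k n r i j).submoduleOf (Cycles k n r i j)

variable {n} in
/-- The action of a permutation of the vertices: `e_v` goes to `e_(g v)` and `x_v` to `x_(g v)`. -/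
def act (g : Equiv.Perm (Vtx n)) (i : ℕ) : Fun k n i →ₗ[k] Fun k n i where
  toFun F := fun u m => F (g.symm ∘ u) (m ∘ g)
  map_add' _ _ := rfl
  map_smul' _ _ := rfl

variable {n} in
theorem isFace_comp {r : ℕ} (g : Equiv.Perm (Vtx n))
    (hg : ∀ a b, hammingDist (g a) (g b) = hammingDist a b) (m : Vtx n → ℕ) :
    IsFace r (m ∘ g) ↔ IsFace r m := by
  constructor
  · intro h u v hu hv
    have := h (g.symm u) (g.symm v) (by simpa using hu) (by simpa using hv)
    rwa [← hg, g.apply_symm_apply, g.apply_symm_apply] at this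
  · intro h u v hu hv
    rw [← hg]
    exact h (g u) (g v) hu hv

variable {n} in
theorem act_chain (g : Equiv.Perm (Vtx n)) (hg : ∀ a b, hammingDist (g a) (g b) = hammingDist a b)
    (i j : ℕ) {F : Fun k n i} (hF : F ∈ Chain k n r i j) : act k g i F ∈ Chain k n r i j := by
  refine ⟨fun τ u m => hF.1 τ (g.symm ∘ u) (m ∘ g), fun u m h => ?_⟩
  obtain ⟨h1, h2⟩ := hF.2 _ _ h
  refine ⟨?_, (isFace_comp g hg m).1 h2⟩
  rw [← h1]
  congr 1
  exact (Equiv.sum_comp g m).symm

variable {n} in
theorem act_kd (g : Equiv.Perm (Vtx n)) (hg : ∀ a b, hammingDist (g a) (g b) = hammingDist a b)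
    (i : ℕ) (F : Fun k n (i + 1)) : kd k n r i (act k g (i + 1) F) = act k g i (kd k n r i F) := by
  classical
  funext u m
  change (if IsFace r m then ∑ w : Vtx n, (if m w = 0 then 0 else
      F (g.symm ∘ Fin.cons w u) ((m - Pi.single w 1) ∘ g)) else 0) =
    if IsFace r (m ∘ g) then ∑ w : Vtx n, (if (m ∘ g) w = 0 then 0 else
      F (Fin.cons w (g.symm ∘ u)) (m ∘ g - Pi.single w 1)) else 0
  by_cases hm : IsFace r m
  · rw [if_pos hm, if_pos ((isFace_comp g hg m).2 hm), ← Equiv.sum_comp g]
    refine Finset.sum_congr rfl fun w _ => ?_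
    have h1 : g.symm ∘ (Fin.cons (g w) u : Fin (i + 1) → Vtx n) = Fin.cons w (g.symm ∘ u) := by
      funext a
      refine Fin.cases ?_ (fun a => ?_) a <;> simp
    have h2 : (m - Pi.single (g w) 1) ∘ g = m ∘ g - Pi.single w 1 := by
      funext v
      simp only [Function.comp_apply, Pi.sub_apply]
      congr 1
      by_cases hv : v = w
      · subst hv; simp
      · rw [Pi.single_eq_of_ne hv, Pi.single_eq_of_ne (fun h => hv (g.injective h))]
    rw [h1, h2]
    rfl
  · rw [if_neg hm, if_neg (fun h => hm ((isFace_comp g hg m).1 h))]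

variable {n} in
theorem act_cycles (g : Equiv.Perm (Vtx n)) (hg : ∀ a b, hammingDist (g a) (g b) = hammingDist a b)
    (i j : ℕ) (F : Fun k n i) (hF : F ∈ Cycles k n r i j) : act k g i F ∈ Cycles k n r i j := by
  cases i with
  | zero => exact act_chain k r g hg 0 j hF
  | succ i =>
    refine ⟨act_chain k r g hg (i + 1) j hF.1, ?_⟩
    have h0 : kd k n r i F = 0 := hF.2
    change kd k n r i (act k g (i + 1) F) = 0
    rw [act_kd k r g hg, h0, map_zero]

variable {n} in
theorem act_bdry (g : Equiv.Perm (Vtx n)) (hg : ∀ a b, hammingDist (g a) (g b) = hammingDist a b)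
    (i j : ℕ) (F : Fun k n i) (hF : F ∈ Bdry k n r i j) : act k g i F ∈ Bdry k n r i j := by
  obtain ⟨G, hG, rfl⟩ := hF
  exact ⟨act k g (i + 1) G, act_chain k r g hg (i + 1) j hG, act_kd k r g hg i G⟩

variable {n} in
/-- The action of an automorphism `g` of the hypercube on `Tor_i (k[x]/I, k)_j`. -/
noncomputable def torAct (g : Equiv.Perm (Vtx n))
    (hg : ∀ a b, hammingDist (g a) (g b) = hammingDist a b) (i j : ℕ) :
    Tor k n r i j →ₗ[k] Tor k n r i j :=
  Submodule.mapQ _ _ ((act k g i).restrict (act_cycles k r g hg i j))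
    (fun F hF => act_bdry k r g hg i j F hF)

end

section
variable {n : ℕ}

/-- The signed permutation given by the coordinate permutation `σ` and the flips `e`. -/
def signed (σ : Equiv.Perm (Fin n)) (e : Fin n → Bool) : Equiv.Perm (Vtx n) where
  toFun v := fun a => xor (v (σ.symm a)) (e a)
  invFun v := fun a => xor (v (σ a)) (e (σ a))
  left_inv v := by funext a; simp
  right_inv v := by funext a; simp

theorem signed_dist (σ : Equiv.Perm (Fin n)) (e : Fin n → Bool) (a b : Vtx n) :
    hammingDist (signed σ e a) (signed σ e b) = hammingDist a b := by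
  unfold hammingDist
  refine Finset.card_bij (fun x _ => σ.symm x) ?_ ?_ ?_
  · intro x hx
    simp only [Finset.mem_filter, Finset.mem_univ, true_and, signed, Equiv.coe_fn_mk] at hx ⊢
    exact fun h => hx (by rw [h])
  · intro x _ y _ h
    exact σ.symm.injective h
  · intro y hy
    refine ⟨σ y, ?_, by simp⟩
    simp only [Finset.mem_filter, Finset.mem_univ, true_and, signed, Equiv.coe_fn_mk,
      Equiv.symm_apply_apply] at hy ⊢
    exact fun h => hy (by simpa using h)

/-- The Betti character `χ_(i,j)` at the signed permutation `(σ, e)`. -/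
noncomputable def bettiChar (k : Type*) [Field k] (n r i j : ℕ) (σ : Equiv.Perm (Fin n))
    (e : Fin n → Bool) : k :=
  LinearMap.trace k (Tor k n r i j) (torAct k r (signed σ e) (signed_dist σ e) i j)

/-- `σ` acting on the subsets of `{0, ..., n-1}` with at most `s` elements. -/
def subsetPerm (σ : Equiv.Perm (Fin n)) (s : ℕ) :
    Equiv.Perm {B : Finset (Fin n) // B.card ≤ s} where
  toFun B := ⟨B.1.map σ.toEmbedding, by rw [Finset.card_map]; exact B.2⟩
  invFun B := ⟨B.1.map σ.symm.toEmbedding, by rw [Finset.card_map]; exact B.2⟩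
  left_inv B := by
    apply Subtype.ext
    simp [Finset.map_map]
  right_inv B := by
    apply Subtype.ext
    simp [Finset.map_map]

/-- The product over all cycles of `π` (fixed points included) of `1 - (-X)^l`, `l` the length. -/
noncomputable def cyclePoly {D : Type*} [Fintype D] [DecidableEq D] (π : Equiv.Perm D) :
    Polynomial ℤ :=
  (π.partition.parts.map fun l => 1 - (-Polynomial.X) ^ l).prod

end

end Pool.Agent.Helper7.BC
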