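import Pool.Agent.Helper7.BC.Base
import Pool.Agent.Helper7.BC.Cross

/-! [BC-2] Far apart sets. Write `V(n,s) = ∑ j ∈ range (s+1), C(n,j)`. -/

namespace Pool.Agent.Helper7.BC

open Finset

private theorem far_dist_sum {n : ℕ} (x y : Vtx n) :
    hammingDist x y = ∑ t, (if x t ≠ y t then 1 else 0) := by
  unfold hammingDist
  rw [Finset.card_filter]

/-- Delete coordinate `c`. -/
def far_del {n : ℕ} (c : Fin (n + 1)) (x : Vtx (n + 1)) : Vtx n := fun t => x (c.succAbove t)

private theorem far_dist_del {n : ℕ} (c : Fin (n + 1)) (x y : Vtx (n + 1)) :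
    hammingDist x y = (if x c ≠ y c then 1 else 0) + hammingDist (far_del c x) (far_del c y) := by
  rw [far_dist_sum, far_dist_sum, Fin.sum_univ_succAbove _ c]
  rfl

private theorem far_del_inj {n : ℕ} (c : Fin (n + 1)) {x y : Vtx (n + 1)} (h : x c = y c)
    (h' : far_del c x = far_del c y) : x = y := by
  have h0 : hammingDist x y = 0 := by
    rw [far_dist_del c, h']
    simp [h]
  exact hammingDist_eq_zero.1 h0

private theorem far_card_image {n : ℕ} (c : Fin (n + 1)) (v : Bool) (A : Finset (Vtx (n + 1)))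
    (hA : ∀ a ∈ A, a c = v) : (A.image (far_del c)).card = A.card :=
  Finset.card_image_of_injOn fun x hx y hy h =>
    far_del_inj c ((hA x hx).trans (hA y hy).symm) h

private theorem far_side {n s : ℕ} (hs : 1 ≤ s) (hs' : s ≤ n) (A B : Finset (Vtx (n + 1)))
    (h : ∀ a ∈ A, ∀ b ∈ B, hammingDist a b ≤ s) (hA : A.Nonempty) (c : Fin (n + 1))
    (hB : ∀ v : Bool, ∃ b ∈ B, b c = v) :
    A.card + B.card ≤ 2 + 2 * ∑ j ∈ range s, n.choose j ∨
      A.card ≤ ∑ j ∈ range s, n.choose j := by
  obtain ⟨s, rfl⟩ : ∃ t, s = t + 1 := ⟨s - 1, by omega⟩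
  by_cases hAc : ∀ v : Bool, ∃ a ∈ A, a c = v
  · left
    have key : ∀ v : Bool, (A.filter fun a => a c = v).card + (B.filter fun b => b c = !v).card
        ≤ 1 + ∑ j ∈ range (s + 1), n.choose j := by
      intro v
      obtain ⟨a, ha, hav⟩ := hAc v
      obtain ⟨b, hb, hbv⟩ := hB (!v)
      have h1 := cross_one n s hs' ((A.filter fun a => a c = v).image (far_del c))
        ((B.filter fun b => b c = !v).image (far_del c))
        ⟨far_del c a, Finset.mem_image_of_mem _ (Finset.mem_filter.2 ⟨ha, hav⟩)⟩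
        ⟨far_del c b, Finset.mem_image_of_mem _ (Finset.mem_filter.2 ⟨hb, hbv⟩)⟩
        (by
          intro x hx y hy
          obtain ⟨a', ha', rfl⟩ := Finset.mem_image.1 hx
          obtain ⟨b', hb', rfl⟩ := Finset.mem_image.1 hy
          rw [Finset.mem_filter] at ha' hb'
          have h2 := h a' ha'.1 b' hb'.1
          rw [far_dist_del c, if_pos (by rw [ha'.2, hb'.2]; cases v <;> simp)] at h2
          omega)
      rw [far_card_image c v _ (fun a ha => (Finset.mem_filter.1 ha).2),
        far_card_image c (!v) _ (fun a ha => (Finset.mem_filter.1 ha).2)] at h1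
      exact h1
    have hsplit : ∀ S : Finset (Vtx (n + 1)), S.card = (S.filter fun a => a c = false).card +
        (S.filter fun a => a c = true).card := by
      intro S
      rw [← Finset.card_filter_add_card_filter_not (fun a : Vtx (n + 1) => a c = false)]
      congr 2
      apply Finset.filter_congr
      intro x _
      simp
    have k1 := key false
    have k2 := key true
    simp only [Bool.not_false, Bool.not_true] at k1 k2
    rw [hsplit A, hsplit B]
    omega
  · right
    push Not at hAc
    obtain ⟨v, hv⟩ := hAc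
    obtain ⟨b, hb, hbv⟩ := hB v
    have hA' : ∀ a ∈ A, a c = !v := by
      intro a ha
      have := hv a ha
      revert this
      cases a c <;> cases v <;> simp
    rw [← far_card_image c (!v) A hA', ← ball_card n s (far_del c b)]
    refine Finset.card_le_card fun x hx => ?_
    obtain ⟨a, ha, rfl⟩ := Finset.mem_image.1 hx
    rw [Finset.mem_filter]
    refine ⟨Finset.mem_univ _, ?_⟩
    have h2 := h a ha b hb
    rw [hammingDist_comm, far_dist_del c, if_pos (by rw [hbv, hA' a ha]; cases v <;> simp)] at h2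
    omega

private theorem far_coord {n : ℕ} (A : Finset (Vtx n)) (hA : 2 ≤ A.card) :
    ∃ c : Fin n, ∀ v : Bool, ∃ a ∈ A, a c = v := by
  obtain ⟨a, ha, b, hb, hab⟩ := Finset.one_lt_card.1 hA
  obtain ⟨c, hc⟩ := Function.ne_iff.1 hab
  refine ⟨c, fun v => ?_⟩
  by_cases h : a c = v
  · exact ⟨a, ha, h⟩
  · refine ⟨b, hb, ?_⟩
    revert hc h
    cases a c <;> cases b c <;> cases v <;> simp

theorem cross_two (n s : ℕ) (hs : s + 1 ≤ n) (A B : Finset (Vtx n)) (hA : 2 ≤ A.card)
    (hB : 2 ≤ B.card) (h : ∀ a ∈ A, ∀ b ∈ B, hammingDist a b ≤ s) :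
    A.card + B.card ≤ 2 + 2 * ∑ j ∈ range s, (n - 1).choose j := by
  obtain ⟨n, rfl⟩ : ∃ t, n = t + 1 := ⟨n - 1, by omega⟩
  have hAn : A.Nonempty := Finset.card_pos.1 (by omega)
  have hBn : B.Nonempty := Finset.card_pos.1 (by omega)
  have hs1 : 1 ≤ s := by
    by_contra h0
    obtain ⟨a, ha, a', ha', haa⟩ := Finset.one_lt_card.1 hA
    obtain ⟨b, hb⟩ := hBn
    have h1 := h a ha b hb
    have h2 := h a' ha' b hb
    have e1 : a = b := hammingDist_eq_zero.1 (by omega)
    have e2 : a' = b := hammingDist_eq_zero.1 (by omega)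
    exact haa (e1.trans e2.symm)
  obtain ⟨c, hc⟩ := far_coord A hA
  obtain ⟨c', hc'⟩ := far_coord B hB
  have h1 := far_side hs1 (by omega : s ≤ n) A B h hAn c' hc'
  have h2 := far_side hs1 (by omega : s ≤ n) B A
    (fun b hb a ha => by rw [hammingDist_comm]; exact h a ha b hb) hBn c hc
  rw [Nat.add_sub_cancel]
  omega

private theorem far_compl {n : ℕ} (a b : Vtx n) :
    hammingDist a (fun t => !(b t)) + hammingDist a b = n := by
  rw [far_dist_sum, far_dist_sum, ← Finset.sum_add_distrib]
  rw [Finset.sum_congr rfl (g := fun _ => 1)]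
  · simp
  · intro t _
    cases a t <;> cases b t <;> simp

theorem far_two (n r : ℕ) (hn : r + 2 ≤ n) (A B : Finset (Vtx n)) (hA : 2 ≤ A.card)
    (hB : 2 ≤ B.card) (h : ∀ a ∈ A, ∀ b ∈ B, r < hammingDist a b) :
    A.card + B.card ≤ 2 + 2 * ∑ j ∈ range (n - r - 1), (n - 1).choose j := by
  have hinj : Function.Injective (fun (b : Vtx n) (t : Fin n) => !(b t)) := by
    intro x y hxy
    funext t
    have := congrFun hxy t
    simpa using this
  have hc : (B.image fun (b : Vtx n) (t : Fin n) => !(b t)).card = B.card :=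
    Finset.card_image_of_injective _ hinj
  have h1 := cross_two n (n - r - 1) (by omega) A
    (B.image fun (b : Vtx n) (t : Fin n) => !(b t)) hA (by rw [hc]; exact hB) (by
      intro a ha x hx
      obtain ⟨b, hb, rfl⟩ := Finset.mem_image.1 hx
      have h2 := h a ha b hb
      have h3 := far_compl a b
      omega)
  rw [hc] at h1
  exact h1

theorem three_far (n r : ℕ) (h : 2 * n < 3 * (r + 1)) (a b c : Vtx n) :
    ¬ (r < hammingDist a b ∧ r < hammingDist b c ∧ r < hammingDist a c) := by
  rintro ⟨h1, h2, h3⟩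
  have h4 : hammingDist a b + hammingDist b c + hammingDist a c ≤ 2 * n := by
    rw [far_dist_sum, far_dist_sum, far_dist_sum, ← Finset.sum_add_distrib,
      ← Finset.sum_add_distrib]
    calc _ ≤ ∑ t : Fin n, 2 := by
          refine Finset.sum_le_sum fun t _ => ?_
          cases a t <;> cases b t <;> cases c t <;> simp
      _ = 2 * n := by simp [mul_comm]
  omega

theorem good_of (n r i : ℕ) (hn : r + 2 ≤ n)
    (hi : 2 + 2 * ∑ j ∈ range (n - r - 1), (n - 1).choose j ≤ i ∨ (i = 2 ∧ 2 * n < 3 * (r + 1))) :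
    Good n r i := by
  rcases hi with hi | ⟨rfl, hi⟩
  · have h1 : 1 ≤ ∑ j ∈ range (n - r - 1), (n - 1).choose j := by
      calc 1 = (n - 1).choose 0 := by simp
        _ ≤ ∑ j ∈ range (n - r - 1), (n - 1).choose j :=
          Finset.single_le_sum (f := fun j => (n - 1).choose j) (fun _ _ => Nat.zero_le _)
            (Finset.mem_range.2 (by omega))
    refine ⟨by omega, fun A B hAB hA hB => ?_, fun h2 => by omega⟩
    have := far_two n r hn A B hA hB hAB
    omega
  · exact ⟨le_refl _, fun A B _ hA hB => by omega, fun _ a b c => three_far n r hi a b c⟩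

end Pool.Agent.Helper7.BC
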