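import Pool.Agent.Helper7.BC.Split

/-! [BC-4] `Tor_i (k[x]/I)_(i+1)` is isomorphic to the model `AA`, equivariantly.

Degree `i + 1` in homological degree `i`: the exponents are `m = Pi.single v 1`. For `F` put
`phi F (w) = F (Fin.tail w) (Pi.single (w 0) 1)` (a linear map `Fun k n i → WFun k n i`). Let `i = i' + 1`.
(1) `F ∈ Cycles k n r i (i+1)` implies `phi F ∈ ZZ`: (H1) from the alternation of `F` (`swap a b` with `a, b ≠ 0`,
    `a = Fin.succ a'`, `b = Fin.succ b'`: `Fin.tail (w ∘ swap a b) = Fin.tail w ∘ swap a' b'`, sign `-1`).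
    (H2) for `a = 1`: `kd F = 0` at `u = (w 2, ..., w i)` (`Fin.tail (Fin.tail w)`) and
    `m = Pi.single (w 0) 1 + Pi.single (w 1) 1`; `IsFace r m` because `d (w 0, w 1) ≤ r`. If `w 0 ≠ w 1` the sum has the
    two terms `F (cons (w 0) u) (single (w 1)) + F (cons (w 1) u) (single (w 0))`, i.e. `phi F (w ∘ swap 0 1) + phi F w`.
    If `w 0 = w 1` the sum has one term `F (cons (w 0) u) (single (w 0)) = phi F w`, so it is 0 and (H2) is clear.
    (H2) for general `a ≠ 0, 1`: `swap 0 a = swap 1 a * swap 0 1 * swap 1 a` and (H1) twice (apply the case `a = 1` to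
    `w ∘ swap 1 a`).
(2) `F ∈ Cycles`, `phi F = 0` implies `F = 0` (`F u m ≠ 0` forces `i + ∑ m = i + 1`, so `m = Pi.single v 1`).
(3) every `f ∈ ZZ` is `phi F` with `F ∈ Cycles`: `F u m = f (Fin.cons v u)` if `m = Pi.single v 1`, 0 otherwise
    (e.g. `F u m = ∑ v, if m = Pi.single v 1 then f (Fin.cons v u) else 0`). It is enough to do this for `f ∈ AA`
    (see (5)), then `kd F = 0` is easy too; but for (4) it is needed for ... nothing else.
(4) boundaries: `G ∈ Chain k n r (i+1) (i+1)` is supported on `m = 0`; `phi (kd G) (w) = G w 0`, fully alternating, so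
    `phi (kd G) ∈ BB`. Conversely for `f ∈ BB` put `G w m = f w` if `m = 0`, 0 otherwise: `G ∈ Chain`, and
    `phi (kd G) = f`; hence for `F ∈ Cycles` with `phi F ∈ BB`: `F = kd G` (both vanish unless `m` is a `single`:
    `kd G (u, m) ≠ 0` needs some `w` with `m w ≠ 0`, `m - single w 1 = 0`, i.e. `m = single w 1`).
(5) The map `Cycles → AA`, `F ↦ psi (phi F)` (`psi_mem`) is onto (`f ∈ AA`: `f ∈ ZZ`, `f = phi F` by (3),
    `psi f = f`), its kernel is `Bdry.submoduleOf Cycles` (`mem_BB_of_psi`, `psi_BB`, (4)). So it induces the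
    isomorphism (`LinearMap.quotKerEquivOfSurjective`, `Submodule.quotEquivOfEq`), and it commutes with `g`:
    `phi (act g F) = actW g (phi F)` (`(Pi.single v 1) ∘ g = Pi.single (g.symm v) 1`), `psi (actW g f) =
    actW g (psi f)` (`isStar_comp`). -/

namespace Pool.Agent.Helper7.BC

open Finset

variable {k : Type*} [Field k] [CharZero k] {n r i : ℕ}

/-- `F` as a function of `i + 1` vertices. -/
def Model_phi (k : Type*) [Field k] (n i : ℕ) : Fun k n i →ₗ[k] WFun k n i where
  toFun F := fun w => F (Fin.tail w) (Pi.single (w 0) 1)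
  map_add' _ _ := rfl
  map_smul' _ _ := rfl

omit [CharZero k] in
theorem Model_phi_apply (F : Fun k n i) (w : Fin (i + 1) → Vtx n) :
    Model_phi k n i F w = F (Fin.tail w) (Pi.single (w 0) 1) := rfl

theorem Model_single_comp (g : Equiv.Perm (Vtx n)) (v : Vtx n) :
    (Pi.single v 1 : Vtx n → ℕ) ∘ g = Pi.single (g.symm v) 1 := by
  funext x
  simp only [Function.comp_apply]
  by_cases h : x = g.symm v
  · subst h; simp
  · rw [Pi.single_eq_of_ne h, Pi.single_eq_of_ne]
    intro h'
    exact h (by rw [← h', Equiv.symm_apply_apply])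

theorem Model_sum_single (v : Vtx n) : ∑ x, (Pi.single v 1 : Vtx n → ℕ) x = 1 := by
  simp

theorem Model_eq_single (m : Vtx n → ℕ) (h : ∑ v, m v = 1) : ∃ v, m = Pi.single v 1 := by
  obtain ⟨v, hv⟩ : ∃ v, m v ≠ 0 := by
    by_contra hc
    push Not at hc
    rw [Finset.sum_eq_zero (fun v _ => hc v)] at h
    exact zero_ne_one h
  refine ⟨v, ?_⟩
  have h1 := Finset.add_sum_erase univ m (mem_univ v)
  rw [h] at h1
  have h2 : ∑ x ∈ univ.erase v, m x = 0 := by omega
  have h3 : m v = 1 := by omega
  funext x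
  by_cases hx : x = v
  · subst hx; simp [h3]
  · rw [Pi.single_eq_of_ne hx]
    exact (Finset.sum_eq_zero_iff.1 h2) x (by simp [hx])

theorem Model_face_single (v : Vtx n) : IsFace r (Pi.single v 1 : Vtx n → ℕ) := by
  intro a b ha hb
  have h1 : a = v := by
    by_contra h
    exact ha (Pi.single_eq_of_ne h _)
  have h2 : b = v := by
    by_contra h
    exact hb (Pi.single_eq_of_ne h _)
  subst h1; subst h2
  simp

theorem Model_tail_swap (w : Fin (i + 1) → Vtx n) (a b : Fin i) :
    Fin.tail (w ∘ Equiv.swap a.succ b.succ) = Fin.tail w ∘ Equiv.swap a b := by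
  funext x
  simp only [Fin.tail, Function.comp_apply]
  congr 1
  by_cases h1 : x = a
  · subst h1; simp
  by_cases h2 : x = b
  · subst h2; simp
  rw [Equiv.swap_apply_of_ne_of_ne h1 h2, Equiv.swap_apply_of_ne_of_ne]
  · exact fun h => h1 (Fin.succ_injective _ h)
  · exact fun h => h2 (Fin.succ_injective _ h)

omit [CharZero k] in
theorem Model_H1 {j : ℕ} {F : Fun k n i} (hF : F ∈ Chain k n r i j) (w : Fin (i + 1) → Vtx n)
    (a b : Fin (i + 1)) (ha : a ≠ 0) (hb : b ≠ 0) (hab : a ≠ b) :
    Model_phi k n i F (w ∘ Equiv.swap a b) = -Model_phi k n i F w := by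
  obtain ⟨a, rfl⟩ := Fin.exists_succ_eq.2 ha
  obtain ⟨b, rfl⟩ := Fin.exists_succ_eq.2 hb
  rw [Model_phi_apply, Model_phi_apply, Model_tail_swap, hF.1,
    Equiv.Perm.sign_swap (fun h => hab (by rw [h]))]
  simp only [Function.comp_apply, Equiv.swap_apply_of_ne_of_ne ha.symm hb.symm]
  simp

theorem Model_swap_zero_one (w : Fin (i + 1 + 1) → Vtx n) :
    Fin.tail (w ∘ Equiv.swap 0 1) = Fin.cons (w 0) (Fin.tail (Fin.tail w)) := by
  funext x
  refine Fin.cases ?_ (fun y => ?_) x
  · simp [Fin.tail]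
  · simp only [Fin.tail, Function.comp_apply, Fin.cons_succ]
    rw [Equiv.swap_apply_of_ne_of_ne (Fin.succ_ne_zero _)]
    intro h
    have h1 : y.succ = (0 : Fin (i + 1)) := Fin.succ_injective _ (by simpa using h)
    exact Fin.succ_ne_zero _ h1

theorem Model_tail_eq (w : Fin (i + 1 + 1) → Vtx n) :
    Fin.tail w = Fin.cons (w 1) (Fin.tail (Fin.tail w)) := by
  funext x
  refine Fin.cases ?_ (fun y => ?_) x
  · simp [Fin.tail]
  · simp [Fin.tail]

omit [CharZero k] in
theorem Model_H2_one {F : Fun k n (i + 1)} (hF : kd k n r i F = 0)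
    (w : Fin (i + 1 + 1) → Vtx n) (hd : hammingDist (w 0) (w 1) ≤ r) :
    Model_phi k n (i + 1) F (w ∘ Equiv.swap 0 1) = -Model_phi k n (i + 1) F w := by
  classical
  have h0 := congrFun (congrFun hF (Fin.tail (Fin.tail w))) (Pi.single (w 0) 1 + Pi.single (w 1) 1)
  have hface : IsFace r (Pi.single (w 0) 1 + Pi.single (w 1) 1 : Vtx n → ℕ) := by
    have hmem : ∀ x, (Pi.single (w 0) 1 + Pi.single (w 1) 1 : Vtx n → ℕ) x ≠ 0 →
        x = w 0 ∨ x = w 1 := by
      intro x hx
      by_contra h
      push Not at h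
      refine hx ?_
      simp [Pi.single_eq_of_ne h.1, Pi.single_eq_of_ne h.2]
    intro a b ha hb
    rcases hmem a ha with rfl | rfl <;> rcases hmem b hb with h | h <;> rw [h]
    · simp
    · exact hd
    · rw [hammingDist_comm]; exact hd
    · simp
  change (if IsFace r _ then ∑ v : Vtx n, _ else 0) = (0 : k) at h0
  rw [if_pos hface] at h0
  rw [Model_phi_apply, Model_phi_apply, Model_swap_zero_one, Model_tail_eq]
  simp only [Function.comp_apply, Equiv.swap_apply_left]
  by_cases h01 : w 0 = w 1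
  · rw [← h01] at h0 ⊢
    rw [Finset.sum_eq_single (w 0)] at h0
    · rw [if_neg (by simp)] at h0
      have h2 : (Pi.single (w 0) 1 + Pi.single (w 0) 1 : Vtx n → ℕ) - Pi.single (w 0) 1 =
          Pi.single (w 0) 1 := by
        funext x; simp
      rw [h2] at h0
      have h0' : F (Fin.cons (w 0) (Fin.tail (Fin.tail w))) (Pi.single (w 0) 1) = 0 := h0
      rw [h0', neg_zero]
      exact h0'
    · intro v _ hv
      rw [if_pos]
      simp [Pi.single_eq_of_ne hv]
    · simp
  · have h3 : ∑ v : Vtx n, (if (Pi.single (w 0) 1 + Pi.single (w 1) 1 : Vtx n → ℕ) v = 0 then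
        (0 : k) else F (Fin.cons v (Fin.tail (Fin.tail w)))
          ((Pi.single (w 0) 1 + Pi.single (w 1) 1 : Vtx n → ℕ) - Pi.single v 1)) =
        F (Fin.cons (w 0) (Fin.tail (Fin.tail w))) (Pi.single (w 1) 1) +
          F (Fin.cons (w 1) (Fin.tail (Fin.tail w))) (Pi.single (w 0) 1) := by
      rw [← Finset.sum_subset (Finset.subset_univ {w 0, w 1}), Finset.sum_pair h01]
      · rw [if_neg (by simp), if_neg (by simp)]
        have h4 : (Pi.single (w 0) 1 + Pi.single (w 1) 1 : Vtx n → ℕ) - Pi.single (w 0) 1 =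
            Pi.single (w 1) 1 := by
          funext x; simp
        have h5 : (Pi.single (w 0) 1 + Pi.single (w 1) 1 : Vtx n → ℕ) - Pi.single (w 1) 1 =
            Pi.single (w 0) 1 := by
          funext x; simp
        rw [h4, h5]
      · intro v _ hv
        simp only [Finset.mem_insert, Finset.mem_singleton, not_or] at hv
        rw [if_pos]
        simp [Pi.single_eq_of_ne hv.1, Pi.single_eq_of_ne hv.2]
    rw [h3] at h0
    exact eq_neg_of_add_eq_zero_left h0

omit [CharZero k] in
theorem Model_phi_ZZ (hi : 2 ≤ i) {F : Fun k n i} (hF : F ∈ Cycles k n r i (i + 1)) :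
    Model_phi k n i F ∈ ZZ k n r i := by
  obtain ⟨i, rfl⟩ : ∃ i', i = i' + 1 := ⟨i - 1, by omega⟩
  have hc : F ∈ Chain k n r (i + 1) (i + 1 + 1) := hF.1
  have hk : kd k n r i F = 0 := hF.2
  refine ⟨fun w a b ha hb hab => Model_H1 hc w a b ha hb hab, fun w a ha hd => ?_⟩
  by_cases h1 : a = 1
  · subst h1
    exact Model_H2_one hk w hd
  · have h10 : (1 : Fin (i + 1 + 1)) ≠ 0 := by simp
    have e : w ∘ Equiv.swap 0 a = ((w ∘ Equiv.swap 1 a) ∘ Equiv.swap 0 1) ∘ Equiv.swap 1 a := by
      have h2 : Equiv.swap 0 a = Equiv.swap 1 a * Equiv.swap 0 1 * Equiv.swap 1 a := by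
        have h3 := Equiv.swap_apply_apply (Equiv.swap 1 a) 0 1
        rw [Equiv.swap_apply_of_ne_of_ne h10.symm ha.symm, Equiv.swap_apply_left,
          Equiv.swap_inv] at h3
        exact h3
      rw [h2]
      rfl
    have hw0 : (w ∘ Equiv.swap 1 a) 0 = w 0 := by
      simp [Equiv.swap_apply_of_ne_of_ne h10.symm ha.symm]
    have hw1 : (w ∘ Equiv.swap 1 a) 1 = w a := by simp
    rw [e, Model_H1 hc _ 1 a h10 ha (Ne.symm h1), Model_H2_one hk (w ∘ Equiv.swap 1 a)
      (by rw [hw0, hw1]; exact hd), Model_H1 hc w 1 a h10 ha (Ne.symm h1)]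
    simp

/-- supported on exponents of degree one -/
def Model_Sup (F : Fun k n i) : Prop := ∀ u m, F u m ≠ 0 → ∑ v, m v = 1

omit [CharZero k] in
theorem Model_ext {F G : Fun k n i} (hF : Model_Sup F) (hG : Model_Sup G)
    (h : Model_phi k n i F = Model_phi k n i G) : F = G := by
  funext u m
  by_cases h1 : ∑ v, m v = 1
  · obtain ⟨v, rfl⟩ := Model_eq_single m h1
    have h2 := congrFun h (Fin.cons v u)
    rw [Model_phi_apply, Model_phi_apply] at h2
    simpa using h2
  · have h2 : F u m = 0 := by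
      by_contra h2; exact h1 (hF _ _ h2)
    have h3 : G u m = 0 := by
      by_contra h3; exact h1 (hG _ _ h3)
    rw [h2, h3]

omit [CharZero k] in
theorem Model_sup_chain {F : Fun k n i} (hF : F ∈ Chain k n r i (i + 1)) : Model_Sup F := by
  intro u m h
  have := (hF.2 u m h).1
  omega

omit [CharZero k] in
/-- alternation in the last arguments for all permutations -/
theorem Model_alt {f : WFun k n i} (hf : ∀ (w : Fin (i + 1) → Vtx n) (a b : Fin (i + 1)), a ≠ 0 →
    b ≠ 0 → a ≠ b → f (w ∘ Equiv.swap a b) = -f w) (τ : Equiv.Perm (Fin i)) (v : Vtx n)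
    (u : Fin i → Vtx n) :
    f (Fin.cons v (u ∘ τ)) = ((Equiv.Perm.sign τ : ℤ) : k) * f (Fin.cons v u) := by
  induction τ using Equiv.Perm.swap_induction_on' with
  | one => simp
  | mul_swap τ a b hab ih =>
    have e : (Fin.cons v (u ∘ ⇑(τ * Equiv.swap a b)) : Fin (i + 1) → Vtx n) =
        Fin.cons v (u ∘ τ) ∘ Equiv.swap a.succ b.succ := by
      funext x
      refine Fin.cases ?_ (fun y => ?_) x
      · simp [Equiv.swap_apply_of_ne_of_ne (Fin.succ_ne_zero a).symm (Fin.succ_ne_zero b).symm]
      · have h1 := congrFun (Model_tail_swap (Fin.cons v (u ∘ τ) : Fin (i + 1) → Vtx n) a b) y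
        simp only [Fin.tail, Function.comp_apply, Fin.cons_succ] at h1
        simp only [Fin.cons_succ, Function.comp_apply, Equiv.Perm.mul_apply]
        rw [h1]
    rw [e, hf _ _ _ (Fin.succ_ne_zero a) (Fin.succ_ne_zero b)
      (fun h => hab (Fin.succ_injective _ h)), ih, Equiv.Perm.sign_mul, Equiv.Perm.sign_swap hab]
    push_cast
    ring

omit [CharZero k] in
/-- alternation in all arguments for all permutations -/
theorem Model_alt' {f : WFun k n i} (hf : f ∈ BB k n i) (τ : Equiv.Perm (Fin (i + 1)))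
    (w : Fin (i + 1) → Vtx n) : f (w ∘ τ) = ((Equiv.Perm.sign τ : ℤ) : k) * f w := by
  induction τ using Equiv.Perm.swap_induction_on' with
  | one => simp
  | mul_swap τ a b hab ih =>
    have e : w ∘ ⇑(τ * Equiv.swap a b) = (w ∘ τ) ∘ Equiv.swap a b := rfl
    rw [e, hf _ _ _ hab, ih, Equiv.Perm.sign_mul, Equiv.Perm.sign_swap hab]
    push_cast
    ring

open Classical in
/-- the element of `Fun` with given values on `Pi.single v 1` -/
noncomputable def Model_up (f : WFun k n i) : Fun k n i := fun u m =>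
  ∑ v, if m = Pi.single v 1 then f (Fin.cons v u) else 0

omit [CharZero k] in
theorem Model_up_single (f : WFun k n i) (u : Fin i → Vtx n) (v : Vtx n) :
    Model_up f u (Pi.single v 1) = f (Fin.cons v u) := by
  classical
  unfold Model_up
  rw [Finset.sum_eq_single v]
  · simp
  · intro x _ hx
    rw [if_neg]
    intro h
    have h1 := congrFun h x
    rw [Pi.single_eq_of_ne hx, Pi.single_eq_same] at h1
    exact zero_ne_one h1
  · simp

omit [CharZero k] in
theorem Model_up_sup (f : WFun k n i) (u : Fin i → Vtx n) (m : Vtx n → ℕ)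
    (h : Model_up f u m ≠ 0) : ∃ v, m = Pi.single v 1 := by
  classical
  by_contra hc
  push Not at hc
  exact h (Finset.sum_eq_zero fun v _ => if_neg (hc v))

omit [CharZero k] in
theorem Model_phi_up (f : WFun k n i) : Model_phi k n i (Model_up f) = f := by
  funext w
  rw [Model_phi_apply, Model_up_single, Fin.cons_self_tail]

omit [CharZero k] in
theorem Model_up_cycle (hi : 2 ≤ i) {f : WFun k n i} (hf : f ∈ AA k n r i) :
    Model_up f ∈ Cycles k n r i (i + 1) := by
  classical
  obtain ⟨i, rfl⟩ : ∃ i', i = i' + 1 := ⟨i - 1, by omega⟩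
  refine ⟨⟨fun τ u m => ?_, fun u m h => ?_⟩, ?_⟩
  · unfold Model_up
    rw [Finset.mul_sum]
    refine Finset.sum_congr rfl fun v _ => ?_
    split_ifs
    · exact Model_alt hf.1 τ v u
    · simp
  · obtain ⟨v, rfl⟩ := Model_up_sup f u m h
    exact ⟨by simp, Model_face_single v⟩
  · change kd k n r i (Model_up f) = 0
    funext u m
    change (if IsFace r m then ∑ v : Vtx n, (if m v = 0 then 0 else
      Model_up f (Fin.cons v u) (m - Pi.single v 1)) else 0) = (0 : k)
    split_ifs with hm
    · refine Finset.sum_eq_zero fun v _ => ?_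
      split_ifs with hv
      · rfl
      · by_contra hne
        obtain ⟨x, hx⟩ := Model_up_sup f _ _ hne
        rw [hx, Model_up_single] at hne
        refine hne (hf.2 _ fun hs => ?_)
        have h1 := hs 1 (by simp)
        have h2 : m x ≠ 0 := by
          intro h0
          have h3 := congrFun hx x
          simp [h0] at h3
        have h4 := hm x v h2 hv
        have h5 : (Fin.cons x (Fin.cons v u) : Fin (i + 1 + 1) → Vtx n) 1 = v := by
          have : (1 : Fin (i + 1 + 1)) = Fin.succ 0 := by simp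
          rw [this, Fin.cons_succ, Fin.cons_zero]
        rw [h5, Fin.cons_zero] at h1
        omega
    · rfl

omit [CharZero k] in
theorem Model_kd_apply (G : Fun k n (i + 1)) (w : Fin (i + 1) → Vtx n) :
    Model_phi k n i (kd k n r i G) w = G w 0 := by
  classical
  change (if IsFace r _ then ∑ v : Vtx n, _ else 0) = G w 0
  rw [if_pos (Model_face_single (w 0)), Finset.sum_eq_single (w 0)]
  · rw [if_neg (by simp), tsub_self, Fin.cons_self_tail]
  · intro v _ hv
    rw [if_pos (Pi.single_eq_of_ne hv _)]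
  · simp

omit [CharZero k] in
theorem Model_chain_zero {G : Fun k n (i + 1)} (hG : G ∈ Chain k n r (i + 1) (i + 1))
    (u : Fin (i + 1) → Vtx n) (m : Vtx n → ℕ) (h : G u m ≠ 0) : m = 0 := by
  have h1 := (hG.2 u m h).1
  have h2 : ∑ v, m v = 0 := by omega
  funext v
  exact (Finset.sum_eq_zero_iff.1 h2) v (mem_univ v)

omit [CharZero k] in
theorem Model_bdry_BB {F : Fun k n i} (hF : F ∈ Bdry k n r i (i + 1)) :
    Model_phi k n i F ∈ BB k n i := by
  obtain ⟨G, hG, rfl⟩ := hF
  intro w a b hab
  rw [Model_kd_apply, Model_kd_apply, hG.1, Equiv.Perm.sign_swap hab]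
  simp

omit [CharZero k] in
theorem Model_kd_sup {G : Fun k n (i + 1)} (hG : G ∈ Chain k n r (i + 1) (i + 1)) :
    Model_Sup (kd k n r i G) := by
  classical
  intro u m h
  have h0 : (if IsFace r m then ∑ v : Vtx n, (if m v = 0 then 0 else
      G (Fin.cons v u) (m - Pi.single v 1)) else 0) ≠ (0 : k) := h
  split_ifs at h0 with hm
  · obtain ⟨v, _, hv⟩ := Finset.exists_ne_zero_of_sum_ne_zero h0
    split_ifs at hv with hmv
    · exact absurd rfl hv
    · have h1 := Model_chain_zero hG _ _ hv
      have h2 : m = Pi.single v 1 := by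
        funext x
        have h3 := congrFun h1 x
        simp only [Pi.sub_apply, Pi.zero_apply] at h3
        by_cases hx : x = v
        · subst hx
          rw [Pi.single_eq_same] at h3 ⊢
          omega
        · rw [Pi.single_eq_of_ne hx] at h3 ⊢
          omega
      rw [h2]
      simp
  · exact absurd rfl h0

omit [CharZero k] in
theorem Model_BB_bdry {F : Fun k n i} (hF : F ∈ Chain k n r i (i + 1))
    (h : Model_phi k n i F ∈ BB k n i) : F ∈ Bdry k n r i (i + 1) := by
  classical
  have hG : (fun w m => if m = 0 then Model_phi k n i F w else 0 : Fun k n (i + 1)) ∈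
      Chain k n r (i + 1) (i + 1) := by
    refine ⟨fun τ u m => ?_, fun u m hne => ?_⟩
    · by_cases hm : m = 0
      · simp only [hm, if_true]
        exact Model_alt' h τ u
      · simp only [hm, if_false, mul_zero]
    · by_cases hm : m = 0
      · subst hm
        refine ⟨by simp, fun a b ha _ => absurd rfl ha⟩
      · exact absurd (if_neg hm) hne
  refine ⟨_, hG, ?_⟩
  refine Model_ext (Model_kd_sup hG) (Model_sup_chain hF) ?_
  funext w
  rw [Model_kd_apply]
  simp

omit [CharZero k] in
theorem Model_phi_act (g : Equiv.Perm (Vtx n)) (F : Fun k n i) :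
    Model_phi k n i (act k g i F) = actW k n i g (Model_phi k n i F) := by
  funext w
  change F (g.symm ∘ Fin.tail w) ((Pi.single (w 0) 1 : Vtx n → ℕ) ∘ g) =
    F (Fin.tail (g.symm ∘ w)) (Pi.single ((g.symm ∘ w) 0) 1)
  rw [Model_single_comp]
  rfl

omit [CharZero k] in
theorem Model_psi_act (g : Equiv.Perm (Vtx n))
    (hg : ∀ a b, hammingDist (g a) (g b) = hammingDist a b) (f : WFun k n i) :
    psi k n r i (actW k n i g f) = actW k n i g (psi k n r i f) := by
  classical
  funext w
  change (if IsStar r w then f (g.symm ∘ w) + f (g.symm ∘ (w ∘ Equiv.swap 0 1)) else 0) =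
    if IsStar r (g.symm ∘ w) then f (g.symm ∘ w) + f ((g.symm ∘ w) ∘ Equiv.swap 0 1) else 0
  by_cases h : IsStar r w
  · rw [if_pos h, if_pos ((isStar_comp r i g hg w).2 h)]
    rfl
  · rw [if_neg h, if_neg (fun h' => h ((isStar_comp r i g hg w).1 h'))]

omit [CharZero k] in
theorem Model_chain_of_cycle {j : ℕ} {F : Fun k n i} (hF : F ∈ Cycles k n r i j) :
    F ∈ Chain k n r i j := by
  cases i with
  | zero => exact hF
  | succ i => exact hF.1

theorem exists_equiv (hG : Good n r i) :
    ∃ E : Tor k n r i (i + 1) ≃ₗ[k] AA k n r i,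
      ∀ (g : Equiv.Perm (Vtx n)) (hg : ∀ a b, hammingDist (g a) (g b) = hammingDist a b)
        (x : Tor k n r i (i + 1)), E (torAct k r g hg i (i + 1) x) = actA k r i g hg (E x) := by
  have hi := hG.1
  let θ : Cycles k n r i (i + 1) →ₗ[k] AA k n r i :=
    ((psi k n r i ∘ₗ Model_phi k n i) ∘ₗ (Cycles k n r i (i + 1)).subtype).codRestrict
      (AA k n r i) (fun F => psi_mem hG _ (Model_phi_ZZ hi F.2))
  have hθ : ∀ F, ((θ F : AA k n r i) : WFun k n i) = psi k n r i (Model_phi k n i F.1) :=
    fun F => rfl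
  have hsurj : Function.Surjective θ := by
    rintro ⟨f, hf⟩
    refine ⟨⟨Model_up f, Model_up_cycle hi hf⟩, Subtype.ext ?_⟩
    rw [hθ, Model_phi_up]
    exact psi_AA hG f hf
  have hker : (Bdry k n r i (i + 1)).submoduleOf (Cycles k n r i (i + 1)) = LinearMap.ker θ := by
    ext F
    rw [LinearMap.mem_ker]
    change (F : Fun k n i) ∈ Bdry k n r i (i + 1) ↔ _
    constructor
    · intro h
      exact Subtype.ext (by rw [hθ]; exact psi_BB hi _ (Model_bdry_BB h))
    · intro h
      have h1 : psi k n r i (Model_phi k n i F.1) = 0 := by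
        rw [← hθ, h]; rfl
      exact Model_BB_bdry (Model_chain_of_cycle F.2)
        (mem_BB_of_psi hG _ (Model_phi_ZZ hi F.2) h1)
  refine ⟨(Submodule.quotEquivOfEq _ _ hker).trans (θ.quotKerEquivOfSurjective hsurj),
    fun g hg x => ?_⟩
  obtain ⟨F, rfl⟩ := Submodule.Quotient.mk_surjective _ x
  apply Subtype.ext
  change psi k n r i (Model_phi k n i (act k g i F.1)) =
    actW k n i g (psi k n r i (Model_phi k n i F.1))
  rw [Model_phi_act, Model_psi_act g hg]

end Pool.Agent.Helper7.BC
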