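import Pool.Agent.Helper7.BC.Base

/-! [BC-8] The vertices far from a fixed vertex `v` of `g = signed σ e`, and the subsets of `Fin n`.

`b ↦ {t | b t = v t}` is a bijection from `{b | r < hammingDist v b}` to `{B | B.card ≤ n - r - 1}`
(`B.card = n - hammingDist v b`; needs `r + 1 ≤ n`); it carries `g` to `subsetPerm σ (n-r-1)`:
`(g b) t = v t = (g v) t` iff `xor (b (σ⁻¹ t)) (e t) = xor (v (σ⁻¹ t)) (e t)` iff `b (σ⁻¹ t) = v (σ⁻¹ t)`.
So for each `τ` the two finsets of functions `u` in `altSumAt` and `altSum` have the same number of elements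
(`Finset.card_bij` / `Finset.card_nbij'`). `card_subsets`: `Finset.card_powersetCard`, sum over the size. -/

namespace Pool.Agent.Helper7.BC

open Finset

/-- The coordinates where `b` agrees with `v`. -/
private def sbPhi {n : ℕ} (v b : Vtx n) : Finset (Fin n) := univ.filter fun t => b t = v t

/-- The vertex which agrees with `v` exactly on `B`. -/
private def sbPsi {n : ℕ} (v : Vtx n) (B : Finset (Fin n)) : Vtx n :=
  fun t => if t ∈ B then v t else !(v t)

private theorem sb_card {n : ℕ} (v b : Vtx n) : (sbPhi v b).card + hammingDist v b = n := by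
  unfold sbPhi hammingDist
  have h := Finset.card_filter_add_card_filter_not (s := (univ : Finset (Fin n)))
    (fun t => b t = v t)
  rw [Finset.card_univ, Fintype.card_fin] at h
  have h2 : (univ.filter fun t => v t ≠ b t) = univ.filter fun t => ¬ b t = v t := by
    ext t
    simp only [mem_filter, mem_univ, true_and, ne_eq]
    exact ⟨fun h1 h2 => h1 h2.symm, fun h1 h2 => h1 h2.symm⟩
  rw [h2]
  exact h

private theorem sb_phi_psi {n : ℕ} (v : Vtx n) (B : Finset (Fin n)) : sbPhi v (sbPsi v B) = B := by
  ext t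
  simp only [sbPhi, sbPsi, mem_filter, mem_univ, true_and]
  by_cases h : t ∈ B
  · simp [h]
  · simp [h]

private theorem sb_psi_phi {n : ℕ} (v b : Vtx n) : sbPsi v (sbPhi v b) = b := by
  funext t
  simp only [sbPhi, sbPsi, mem_filter, mem_univ, true_and]
  by_cases h : b t = v t
  · simp [h]
  · rw [if_neg h]
    revert h
    cases b t <;> cases v t <;> simp

private theorem sb_phi_signed {n : ℕ} (σ : Equiv.Perm (Fin n)) (e : Fin n → Bool) (v b : Vtx n)
    (hv : signed σ e v = v) : sbPhi v (signed σ e b) = (sbPhi v b).map σ.toEmbedding := by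
  ext t
  have hvt : xor (v (σ.symm t)) (e t) = v t := congrFun hv t
  simp only [sbPhi, mem_filter, mem_univ, true_and, mem_map, Equiv.coe_toEmbedding]
  constructor
  · intro h
    refine ⟨σ.symm t, ?_, by simp⟩
    have h' : xor (b (σ.symm t)) (e t) = v t := h
    rw [← hvt] at h'
    revert h'
    cases b (σ.symm t) <;> cases v (σ.symm t) <;> cases e t <;> simp
  · rintro ⟨s, hs, rfl⟩
    change xor (b (σ.symm (σ s))) (e (σ s)) = v (σ s)
    rw [← hvt, Equiv.symm_apply_apply, hs]

private theorem sb_signed_psi {n : ℕ} (σ : Equiv.Perm (Fin n)) (e : Fin n → Bool) (v : Vtx n)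
    (hv : signed σ e v = v) (B : Finset (Fin n)) :
    signed σ e (sbPsi v B) = sbPsi v (B.map σ.toEmbedding) := by
  rw [← sb_psi_phi v (signed σ e (sbPsi v B)), sb_phi_signed σ e v _ hv, sb_phi_psi]

theorem altSumAt_signed {n : ℕ} (r i : ℕ) (hn : r + 1 ≤ n) (σ : Equiv.Perm (Fin n))
    (e : Fin n → Bool) (v : Vtx n) (hv : signed σ e v = v) :
    altSumAt r i (signed σ e) v = altSum i (subsetPerm σ (n - r - 1)) := by
  unfold altSumAt altSum
  refine Finset.sum_congr rfl fun τ _ => ?_
  congr 2
  have key : ∀ b : Vtx n, r < hammingDist v b ↔ (sbPhi v b).card ≤ n - r - 1 := by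
    intro b
    have h := sb_card v b
    omega
  let f : Vtx n → {B : Finset (Fin n) // B.card ≤ n - r - 1} := fun b =>
    if h : (sbPhi v b).card ≤ n - r - 1 then ⟨sbPhi v b, h⟩ else ⟨∅, by simp⟩
  have hf : ∀ b : Vtx n, r < hammingDist v b → (f b).1 = sbPhi v b := by
    intro b hb
    simp only [f]
    rw [dif_pos ((key b).1 hb)]
  have hpsi : ∀ B : {B : Finset (Fin n) // B.card ≤ n - r - 1},
      r < hammingDist v (sbPsi v B.1) := by
    intro B
    rw [key, sb_phi_psi]
    exact B.2
  refine Finset.card_nbij' (fun u j => f (u j)) (fun U j => sbPsi v (U j).1) ?_ ?_ ?_ ?_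
  · intro u hu
    simp only [coe_filter, mem_univ, true_and, Set.mem_ofPred_eq] at hu ⊢
    obtain ⟨h1, h2⟩ := hu
    funext j
    apply Subtype.ext
    have h3 : signed σ e (u j) = u (τ j) := congrFun h2 j
    have h4 : (f (u (τ j))).1 = sbPhi v (u (τ j)) := hf _ (h1 _)
    change ((f (u j)).1).map σ.toEmbedding = (f (u (τ j))).1
    rw [hf _ (h1 j), h4, ← h3, sb_phi_signed σ e v _ hv]
  · intro U hU
    simp only [coe_filter, mem_univ, true_and, Set.mem_ofPred_eq] at hU ⊢
    refine ⟨fun j => hpsi _, ?_⟩
    funext j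
    have h3 : subsetPerm σ (n - r - 1) (U j) = U (τ j) := congrFun hU j
    change signed σ e (sbPsi v (U j).1) = sbPsi v (U (τ j)).1
    rw [sb_signed_psi σ e v hv, ← h3]
    rfl
  · intro u hu
    simp only [coe_filter, mem_univ, true_and, Set.mem_ofPred_eq] at hu
    funext j
    change sbPsi v (f (u j)).1 = u j
    rw [hf _ (hu.1 j), sb_psi_phi]
  · intro U _
    funext j
    apply Subtype.ext
    change (f (sbPsi v (U j).1)).1 = (U j).1
    rw [hf _ (hpsi _), sb_phi_psi]

theorem card_subsets (n s : ℕ) :
    Fintype.card {B : Finset (Fin n) // B.card ≤ s} = ∑ j ∈ range (s + 1), n.choose j := by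
  rw [Fintype.card_subtype]
  rw [Finset.card_eq_sum_card_fiberwise (f := fun B : Finset (Fin n) => B.card)
    (t := range (s + 1))]
  · refine Finset.sum_congr rfl fun j hj => ?_
    have hj' : j ≤ s := by
      have := Finset.mem_range.1 hj
      omega
    have h : (filter (fun B : Finset (Fin n) => B.card = j)
        (filter (fun B : Finset (Fin n) => B.card ≤ s) univ)) = powersetCard j univ := by
      ext B
      simp only [mem_filter, mem_univ, true_and, mem_powersetCard, subset_univ]
      constructor
      · exact fun h => h.2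
      · exact fun h => ⟨by omega, h⟩
    rw [h, card_powersetCard, card_univ, Fintype.card_fin]
  · intro B hB
    simp only [coe_filter, mem_univ, true_and, Set.mem_ofPred_eq] at hB
    simp only [coe_range, Set.mem_Iio]
    omega

end Pool.Agent.Helper7.BC
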