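import Pool.Agent.Helper7.BC.Base

/-! [BC-5] The trace of `g` on the model `AA`.

Let `P : WFun → WFun`, `P f (w) = (i!)⁻¹ ∑ τ : Perm (Fin i), sign τ * f (Fin.cons (w 0) (Fin.tail w ∘ τ))` if `w` is
a star, 0 otherwise. For `f ∈ AA`: `f (Fin.cons (w 0) (Fin.tail w ∘ τ)) = sign τ * f w` (induction on `τ` as a product
of swaps, `Equiv.Perm.swap_induction_on`), so `P f = f`; and `P f ∈ AA` for every `f`. With `T = actW g ∘ P` (image in
`AA`, `T f = actW g f` on `AA`) `LinearMap.trace_restrict_eq_of_forall_mem` (Mathlib.LinearAlgebra.Trace) gives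
`trace (actA g) = trace T` on `WFun = (Fin (i+1) → Vtx n) → k`, and for the standard basis (`Pi.basisFun`,
`LinearMap.trace_eq_matrix_trace`, `LinearMap.toMatrix'`)
`trace T = ∑ w, T (Pi.single w 1) w = ∑ w, P (Pi.single w 1) (g⁻¹ ∘ w)
  = (i!)⁻¹ ∑ w, [w star] ∑ τ, sign τ * [g⁻¹ (w 0) = w 0 and g⁻¹ ∘ tail w ∘ τ = tail w]`
(`isStar_comp`: `g⁻¹ ∘ w` is a star iff `w` is). The condition is `g (w 0) = w 0` and `g ∘ tail w = tail w ∘ τ`.
Sum over `v = w 0` and `u = tail w` (`Fin.consEquiv` or `Fin.insertNthEquiv`): this is the right side. -/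

namespace Pool.Agent.Helper7.BC

open Finset

section TraceAlt

variable {n i : ℕ}

/-- `τ` acts on the last `i` arguments -/
def ta_lift (τ : Equiv.Perm (Fin i)) (w : Fin (i + 1) → Vtx n) : Fin (i + 1) → Vtx n :=
  Fin.cons (w 0) (Fin.tail w ∘ τ)

theorem ta_lift_zero (τ : Equiv.Perm (Fin i)) (w : Fin (i + 1) → Vtx n) : ta_lift τ w 0 = w 0 := rfl

theorem ta_lift_succ (τ : Equiv.Perm (Fin i)) (w : Fin (i + 1) → Vtx n) (j : Fin i) :
    ta_lift τ w j.succ = w (τ j).succ := by
  simp [ta_lift, Fin.tail]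

theorem ta_lift_lift (σ τ : Equiv.Perm (Fin i)) (w : Fin (i + 1) → Vtx n) :
    ta_lift τ (ta_lift σ w) = ta_lift (σ * τ) w := by
  funext a
  refine Fin.cases ?_ (fun a => ?_) a
  · rfl
  · rw [ta_lift_succ, ta_lift_succ, ta_lift_succ, Equiv.Perm.mul_apply]

theorem ta_lift_one (w : Fin (i + 1) → Vtx n) : ta_lift 1 w = w := by
  funext a
  refine Fin.cases ?_ (fun a => ?_) a
  · rfl
  · rw [ta_lift_succ, Equiv.Perm.one_apply]

theorem ta_lift_swap (x y : Fin i) (w : Fin (i + 1) → Vtx n) :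
    ta_lift (Equiv.swap x y) w = w ∘ Equiv.swap x.succ y.succ := by
  funext a
  refine Fin.cases ?_ (fun a => ?_) a
  · rw [ta_lift_zero, Function.comp_apply,
      Equiv.swap_apply_of_ne_of_ne (Fin.succ_ne_zero x).symm (Fin.succ_ne_zero y).symm]
  · rw [ta_lift_succ, Function.comp_apply]
    congr 1
    by_cases h1 : a = x
    · subst h1
      rw [Equiv.swap_apply_left, Equiv.swap_apply_left]
    · by_cases h2 : a = y
      · subst h2
        rw [Equiv.swap_apply_right, Equiv.swap_apply_right]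
      · rw [Equiv.swap_apply_of_ne_of_ne h1 h2, Equiv.swap_apply_of_ne_of_ne
          (fun h => h1 (Fin.succ_injective _ h)) (fun h => h2 (Fin.succ_injective _ h))]

theorem ta_star (r : ℕ) (τ : Equiv.Perm (Fin i)) (w : Fin (i + 1) → Vtx n) :
    IsStar r (ta_lift τ w) ↔ IsStar r w := by
  have key : ∀ (τ : Equiv.Perm (Fin i)) (w : Fin (i + 1) → Vtx n), IsStar r w →
      IsStar r (ta_lift τ w) := by
    intro τ w h a ha
    obtain ⟨j, rfl⟩ := Fin.exists_succ_eq.2 ha
    rw [ta_lift_zero, ta_lift_succ]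
    exact h _ (Fin.succ_ne_zero _)
  refine ⟨fun h => ?_, key τ w⟩
  have := key τ⁻¹ _ h
  rwa [ta_lift_lift, mul_inv_cancel, ta_lift_one] at this

theorem ta_star_cons (r : ℕ) (v : Vtx n) (u : Fin i → Vtx n) :
    IsStar r (Fin.cons v u : Fin (i + 1) → Vtx n) ↔ ∀ j, r < hammingDist v (u j) := by
  constructor
  · intro h j
    have := h j.succ (Fin.succ_ne_zero _)
    simpa using this
  · intro h a ha
    obtain ⟨j, rfl⟩ := Fin.exists_succ_eq.2 ha
    simpa using h j

variable {k : Type*} [Field k]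

theorem ta_alt {r : ℕ} {f : WFun k n i} (hf : f ∈ AA k n r i) (τ : Equiv.Perm (Fin i)) :
    ∀ w, f (ta_lift τ w) = ((Equiv.Perm.sign τ : ℤ) : k) * f w := by
  refine Equiv.Perm.swap_induction_on τ (fun w => ?_) (fun σ x y hxy ih w => ?_)
  · rw [ta_lift_one]
    simp
  · rw [← ta_lift_lift, ih, ta_lift_swap, hf.1 w _ _ (Fin.succ_ne_zero _) (Fin.succ_ne_zero _)
      (fun h => hxy (Fin.succ_injective _ h)), Equiv.Perm.sign_mul, Equiv.Perm.sign_swap hxy]
    push_cast
    ring

open Classical in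
/-- the averaging projection -/
noncomputable def ta_P (k : Type*) [Field k] (n r i : ℕ) : WFun k n i →ₗ[k] WFun k n i where
  toFun f := fun w => if IsStar r w then
    (i.factorial : k)⁻¹ * ∑ τ : Equiv.Perm (Fin i), ((Equiv.Perm.sign τ : ℤ) : k) * f (ta_lift τ w)
    else 0
  map_add' f g := by
    funext w
    simp only [Pi.add_apply]
    split_ifs
    · rw [← mul_add, ← sum_add_distrib]
      congr 1
      exact sum_congr rfl fun τ _ => by ring
    · simp
  map_smul' c f := by
    funext w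
    simp only [Pi.smul_apply, smul_eq_mul, RingHom.id_apply]
    split_ifs
    · rw [mul_left_comm, mul_sum, mul_sum, mul_sum]
      exact sum_congr rfl fun τ _ => by ring
    · simp

theorem ta_P_mem (r : ℕ) (f : WFun k n i) : ta_P k n r i f ∈ AA k n r i := by
  classical
  refine ⟨fun w a b ha hb hab => ?_, fun w h => if_neg h⟩
  obtain ⟨x, rfl⟩ := Fin.exists_succ_eq.2 ha
  obtain ⟨y, rfl⟩ := Fin.exists_succ_eq.2 hb
  have hxy : x ≠ y := fun h => hab (by rw [h])
  rw [← ta_lift_swap]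
  change (if IsStar r (ta_lift (Equiv.swap x y) w) then
    (i.factorial : k)⁻¹ * ∑ τ : Equiv.Perm (Fin i), ((Equiv.Perm.sign τ : ℤ) : k) *
      f (ta_lift τ (ta_lift (Equiv.swap x y) w)) else 0) =
    -(if IsStar r w then
    (i.factorial : k)⁻¹ * ∑ τ : Equiv.Perm (Fin i), ((Equiv.Perm.sign τ : ℤ) : k) *
      f (ta_lift τ w) else 0)
  by_cases h : IsStar r w
  · rw [if_pos h, if_pos ((ta_star r _ w).2 h), ← mul_neg, ← sum_neg_distrib]
    congr 1
    refine Fintype.sum_equiv (Equiv.mulLeft (Equiv.swap x y)) _ _ fun τ => ?_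
    rw [ta_lift_lift, Equiv.coe_mulLeft, Equiv.Perm.sign_mul, Equiv.Perm.sign_swap hxy]
    push_cast
    ring
  · rw [if_neg h, if_neg (fun h' => h ((ta_star r _ w).1 h')), neg_zero]

theorem ta_P_eq [CharZero k] {r : ℕ} {f : WFun k n i} (hf : f ∈ AA k n r i) :
    ta_P k n r i f = f := by
  classical
  funext w
  change (if IsStar r w then (i.factorial : k)⁻¹ * ∑ τ : Equiv.Perm (Fin i),
    ((Equiv.Perm.sign τ : ℤ) : k) * f (ta_lift τ w) else 0) = f w
  by_cases h : IsStar r w
  · have h1 : ∀ τ : Equiv.Perm (Fin i), ((Equiv.Perm.sign τ : ℤ) : k) * f (ta_lift τ w) = f w := by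
      intro τ
      rw [ta_alt hf, ← mul_assoc]
      have : ((Equiv.Perm.sign τ : ℤ) : k) * ((Equiv.Perm.sign τ : ℤ) : k) = 1 := by
        rw [← Int.cast_mul, ← Units.val_mul, Int.units_mul_self, Units.val_one, Int.cast_one]
      rw [this, one_mul]
    have h2 : (i.factorial : k) ≠ 0 := by exact_mod_cast i.factorial_ne_zero
    rw [if_pos h, sum_congr rfl fun τ _ => h1 τ, sum_const, card_univ, Fintype.card_perm,
      Fintype.card_fin, nsmul_eq_mul, ← mul_assoc, inv_mul_cancel₀ h2, one_mul]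
  · rw [if_neg h, hf.2 w h]

theorem ta_trace (T : WFun k n i →ₗ[k] WFun k n i) :
    LinearMap.trace k (WFun k n i) T = ∑ w, T (Pi.single w 1) w := by
  classical
  rw [LinearMap.trace_eq_matrix_trace k (Pi.basisFun k (Fin (i + 1) → Vtx n)), Matrix.trace]
  refine sum_congr rfl fun w _ => ?_
  rw [Matrix.diag_apply, LinearMap.toMatrix_apply, Pi.basisFun_apply]
  simp

theorem ta_cond (g : Equiv.Perm (Vtx n)) (τ : Equiv.Perm (Fin i)) (v : Vtx n)
    (u : Fin i → Vtx n) :
    ta_lift τ (g.symm ∘ (Fin.cons v u : Fin (i + 1) → Vtx n)) = Fin.cons v u ↔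
      g v = v ∧ g ∘ u = u ∘ τ := by
  constructor
  · intro h
    have h0 := congrFun h 0
    rw [ta_lift_zero] at h0
    simp only [Function.comp_apply, Fin.cons_zero] at h0
    refine ⟨?_, ?_⟩
    · exact ((Equiv.symm_apply_eq g).1 h0).symm
    · funext j
      have h1 := congrFun h j.succ
      rw [ta_lift_succ] at h1
      simp only [Function.comp_apply, Fin.cons_succ] at h1
      rw [Function.comp_apply, Function.comp_apply, ← h1, Equiv.apply_symm_apply]
  · rintro ⟨h0, h1⟩
    funext a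
    refine Fin.cases ?_ (fun j => ?_) a
    · rw [ta_lift_zero]
      simp only [Function.comp_apply, Fin.cons_zero]
      rw [Equiv.symm_apply_eq, h0]
    · rw [ta_lift_succ]
      simp only [Function.comp_apply, Fin.cons_succ]
      rw [Equiv.symm_apply_eq]
      exact (congrFun h1 j).symm

end TraceAlt

theorem trace_actA {k : Type*} [Field k] [CharZero k] {n r i : ℕ} (g : Equiv.Perm (Vtx n))
    (hg : ∀ a b, hammingDist (g a) (g b) = hammingDist a b) :
    (i.factorial : k) * LinearMap.trace k (AA k n r i) (actA k r i g hg)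
      = ((∑ v ∈ (univ : Finset (Vtx n)).filter (fun v => g v = v), altSumAt r i g v : ℤ) : k) := by
  classical
  have h2 : (i.factorial : k) ≠ 0 := by exact_mod_cast i.factorial_ne_zero
  set T : WFun k n i →ₗ[k] WFun k n i := actW k n i g ∘ₗ ta_P k n r i with hT
  have hmem : ∀ f, T f ∈ AA k n r i := fun f => actW_mem k r i g hg _ (ta_P_mem r f)
  have hres : actA k r i g hg = T.restrict (fun f _ => hmem f) := by
    refine LinearMap.ext fun f => Subtype.ext ?_
    change actW k n i g f.1 = actW k n i g (ta_P k n r i f.1)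
    rw [ta_P_eq f.2]
  rw [hres, LinearMap.trace_restrict_eq_of_forall_mem (AA k n r i) T hmem, ta_trace]
  have hterm : ∀ (v : Vtx n) (u : Fin i → Vtx n),
      (i.factorial : k) * T (Pi.single (Fin.cons v u : Fin (i + 1) → Vtx n) 1)
        (Fin.cons v u : Fin (i + 1) → Vtx n) =
      ∑ τ : Equiv.Perm (Fin i), (if g v = v then ((Equiv.Perm.sign τ : ℤ) : k) *
        (if (∀ j, r < hammingDist v (u j)) ∧ g ∘ u = u ∘ τ then 1 else 0) else 0) := by
    intro v u
    change (i.factorial : k) * (if IsStar r (g.symm ∘ (Fin.cons v u : Fin (i + 1) → Vtx n)) then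
      (i.factorial : k)⁻¹ * ∑ τ : Equiv.Perm (Fin i), ((Equiv.Perm.sign τ : ℤ) : k) *
        (Pi.single (Fin.cons v u : Fin (i + 1) → Vtx n) (1 : k) : WFun k n i)
          (ta_lift τ (g.symm ∘ (Fin.cons v u : Fin (i + 1) → Vtx n))) else 0) = _
    by_cases hs : IsStar r (Fin.cons v u : Fin (i + 1) → Vtx n)
    · rw [if_pos ((isStar_comp r i g hg _).2 hs), ← mul_assoc, mul_inv_cancel₀ h2, one_mul]
      refine sum_congr rfl fun τ _ => ?_
      rw [Pi.single_apply]
      have hs' := (ta_star_cons r v u).1 hs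
      by_cases hv : g v = v
      · by_cases hu : g ∘ u = u ∘ τ
        · rw [if_pos ((ta_cond g τ v u).2 ⟨hv, hu⟩), if_pos hv, if_pos ⟨hs', hu⟩]
        · rw [if_neg (fun h => hu ((ta_cond g τ v u).1 h).2), if_pos hv, if_neg (fun h => hu h.2)]
      · rw [if_neg (fun h => hv ((ta_cond g τ v u).1 h).1), if_neg hv, mul_zero]
    · rw [if_neg (fun h => hs ((isStar_comp r i g hg _).1 h)), mul_zero]
      have hs' : ¬ ∀ j, r < hammingDist v (u j) := fun h => hs ((ta_star_cons r v u).2 h)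
      rw [eq_comm]
      refine sum_eq_zero fun τ _ => ?_
      rw [if_neg (fun h : _ ∧ _ => hs' h.1), mul_zero, ite_self]
  have hsum : ∑ w : Fin (i + 1) → Vtx n, T (Pi.single w 1) w =
      ∑ v : Vtx n, ∑ u : Fin i → Vtx n, T (Pi.single (Fin.cons v u : Fin (i + 1) → Vtx n) 1)
        (Fin.cons v u : Fin (i + 1) → Vtx n) := by
    rw [← Fintype.sum_prod_type' (f := fun (v : Vtx n) (u : Fin i → Vtx n) =>
      T (Pi.single (Fin.cons v u : Fin (i + 1) → Vtx n) 1) (Fin.cons v u : Fin (i + 1) → Vtx n))]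
    exact (Fintype.sum_equiv (Fin.consEquiv (fun _ : Fin (i + 1) => Vtx n)) _ _
      (fun x => rfl)).symm
  rw [hsum, mul_sum]
  simp_rw [mul_sum, hterm]
  rw [Int.cast_sum, sum_filter]
  refine sum_congr rfl fun v _ => ?_
  by_cases hv : g v = v
  · rw [if_pos hv]
    simp only [hv, if_true]
    unfold altSumAt
    rw [Int.cast_sum, sum_comm]
    refine sum_congr rfl fun τ _ => ?_
    rw [← mul_sum, Int.cast_mul, Int.cast_natCast, sum_boole]
  · rw [if_neg hv]
    simp only [hv, if_false, sum_const_zero]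

end Pool.Agent.Helper7.BC
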