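import Pool.Agent.Helper7.BC.Far
import Pool.Agent.Helper7.BC.Model
import Pool.Agent.Helper7.BC.TraceAlt
import Pool.Agent.Helper7.BC.CycleSum
import Pool.Agent.Helper7.BC.Subsets
import Pool.Agent.Helper7.BC.Bridge

/-! The trace on Tor and the dimension. -/

namespace Pool.Agent.Helper7.BC

open Finset

section
variable {k : Type*} [Field k] [CharZero k]

theorem trace_eq (n r i : ℕ) (hn : r + 2 ≤ n) (hG : Good n r i) (σ : Equiv.Perm (Fin n))
    (e : Fin n → Bool) :
    bettiChar k n r i (i + 1) σ e = ((((univ.filter fun v => signed σ e v = v).card : ℤ) *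
      (cyclePoly (subsetPerm σ (n - r - 1))).coeff i : ℤ) : k) := by
  obtain ⟨E, hE⟩ := exists_equiv (k := k) hG
  have h1 : bettiChar k n r i (i + 1) σ e = LinearMap.trace k (AA k n r i)
      (actA k r i (signed σ e) (signed_dist σ e)) := by
    unfold bettiChar
    rw [← LinearMap.trace_conj' _ E]
    congr 1
    apply LinearMap.ext
    intro x
    rw [LinearEquiv.conj_apply_apply, hE]
    simp
  have h2 := trace_actA (k := k) (n := n) (r := r) (i := i) (signed σ e) (signed_dist σ e)
  have hf : (i.factorial : k) ≠ 0 := by exact_mod_cast i.factorial_ne_zero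
  apply mul_left_cancel₀ hf
  rw [h1, h2]
  have h3 : (∑ v ∈ (univ : Finset (Vtx n)).filter (fun v => signed σ e v = v),
      altSumAt r i (signed σ e) v) = (i.factorial : ℤ) *
      (((univ.filter fun v => signed σ e v = v).card : ℤ) *
      (cyclePoly (subsetPerm σ (n - r - 1))).coeff i) := by
    rw [Finset.sum_congr rfl (g := fun _ => (i.factorial : ℤ) *
      (cyclePoly (subsetPerm σ (n - r - 1))).coeff i)]
    · rw [Finset.sum_const, nsmul_eq_mul]; ring
    · intro v hv
      rw [altSumAt_signed r i (by omega) σ e v (by simpa using hv), altSum_eq_signOn, sum_signOn]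
  rw [h3]
  push_cast
  ring

theorem signed_one (n : ℕ) : signed (1 : Equiv.Perm (Fin n)) (fun _ => false) = 1 := by
  apply Equiv.ext
  intro v
  funext a
  change xor (v ((1 : Equiv.Perm (Fin n)).symm a)) false = v a
  rw [Bool.xor_false]
  rfl

theorem subsetPerm_one (n s : ℕ) : subsetPerm (1 : Equiv.Perm (Fin n)) s = 1 := by
  apply Equiv.ext
  intro B
  apply Subtype.ext
  change B.1.map (1 : Equiv.Perm (Fin n)).toEmbedding = B.1
  exact Finset.map_refl

theorem finrank_AA (n r i : ℕ) (hn : r + 2 ≤ n) :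
    Module.finrank k (AA k n r i) = 2 ^ n * (∑ j ∈ range (n - r), n.choose j).choose i := by
  have h2 := trace_actA (k := k) (n := n) (r := r) (i := i) 1 (fun _ _ => rfl)
  have h1 : actA k r i (1 : Equiv.Perm (Vtx n)) (fun _ _ => rfl) = LinearMap.id := by
    apply LinearMap.ext
    intro x
    apply Subtype.ext
    funext w
    rfl
  rw [h1, LinearMap.trace_id] at h2
  have h3 : (∑ v ∈ (univ : Finset (Vtx n)).filter (fun v => (1 : Equiv.Perm (Vtx n)) v = v),
      altSumAt r i 1 v) = (i.factorial : ℤ) *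
      ((2 ^ n * (∑ j ∈ range (n - r), n.choose j).choose i : ℕ) : ℤ) := by
    rw [Finset.sum_congr rfl (g := fun _ => (i.factorial : ℤ) *
      ((∑ j ∈ range (n - r), n.choose j).choose i : ℤ))]
    · rw [Finset.sum_const, nsmul_eq_mul]
      have h4 : (univ.filter fun v : Vtx n => (1 : Equiv.Perm (Vtx n)) v = v).card = 2 ^ n := by
        simp
      rw [h4]
      push_cast
      ring
    · intro v hv
      have h5 := altSumAt_signed (n := n) r i (by omega) 1 (fun _ => false) v
        (by rw [signed_one]; rfl)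
      rw [signed_one, subsetPerm_one, altSum_eq_signOn, sum_signOn, cyclePoly_one, card_subsets,
        show n - r - 1 + 1 = n - r by omega] at h5
      exact h5
  rw [h3] at h2
  have hf : (i.factorial : k) ≠ 0 := by exact_mod_cast i.factorial_ne_zero
  have h6 : (Module.finrank k (AA k n r i) : k)
      = ((2 ^ n * (∑ j ∈ range (n - r), n.choose j).choose i : ℕ) : k) := by
    apply mul_left_cancel₀ hf
    rw [h2]
    push_cast
    ring
  exact_mod_cast h6

end

theorem final (k : Type*) [Field k] [CharZero k] (n r i : ℕ) (hn : r + 2 ≤ n)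
    (hi : 2 + 2 * ∑ j ∈ range (n - r - 1), (n - 1).choose j ≤ i ∨ (i = 2 ∧ 2 * n < 3 * (r + 1))) :
    (∀ (σ : Equiv.Perm (Fin n)) (e : Fin n → Bool),
      Koszul.chi k n r i (i + 1) σ e =
        ((((univ.filter fun v => Koszul.signed σ e v = v).card : ℤ) *
        (Koszul.cyclePoly (Koszul.subsetPerm σ (n - r - 1))).coeff i : ℤ) : k)) ∧
    Module.finrank k (Koszul.Tor k n r i (i + 1)) =
      2 ^ n * (∑ j ∈ range (n - r), n.choose j).choose i := by
  have hG := good_of n r i hn hi
  obtain ⟨i, rfl⟩ : ∃ t, i = t + 1 := ⟨i - 1, by have := hG.1; omega⟩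
  refine ⟨fun σ e => ?_, ?_⟩
  · rw [chi_eq]
    exact trace_eq n r (i + 1) hn hG σ e
  · rw [finrank_eq]
    obtain ⟨E, -⟩ := exists_equiv (k := k) hG
    rw [E.finrank_eq]
    exact finrank_AA n r (i + 1) hn

end Pool.Agent.Helper7.BC
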