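import Mathlib

/-! Statement-level definitions for MP_52073a_co: the graded pieces of Tor of the Stanley-Reisner
ring of the Vietoris-Rips complex of the hypercube at scale `r`, by the Koszul complex, with the
action of the signed permutations. -/

namespace Pool.Agent.Helper7.BC.Koszul

open Finset

/-- The vertices of the hypercube. -/
abbrev Vert (n : ℕ) : Type := Fin n → Bool

/-- The support of `m` is a face: any two of its vertices are at distance at most `r`. -/
def IsFace {n : ℕ} (r : ℕ) (m : Vert n → ℕ) : Prop :=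
  ∀ u v, m u ≠ 0 → m v ≠ 0 → hammingDist u v ≤ r

/-- `F u m` is the coefficient of `e_(u 0) ∧ ... ∧ e_(u (i-1)) ⊗ x^m`. -/
def Fn (k : Type*) (n i : ℕ) : Type _ := (Fin i → Vert n) → (Vert n → ℕ) → k

section
variable (k : Type*) [Field k] (n r : ℕ)

instance fnGroup (i : ℕ) : AddCommGroup (Fn k n i) :=
  @Pi.addCommGroup _ _ fun _ => @Pi.addCommGroup _ _ fun _ => inferInstance

instance fnModule (i : ℕ) : Module k (Fn k n i) :=
  @Pi.module _ _ _ _ _ fun _ => @Pi.module _ _ _ _ _ fun _ => inferInstance

variable {k n} in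
/-- `F` is alternating, and supported on exponents `m` of degree `j - i` outside the ideal. -/
def IsChain (i j : ℕ) (F : Fn k n i) : Prop :=
  (∀ (τ : Equiv.Perm (Fin i)) (u : Fin i → Vert n) (m : Vert n → ℕ),
    F (u ∘ τ) m = ((Equiv.Perm.sign τ : ℤ) : k) * F u m) ∧
  ∀ (u : Fin i → Vert n) (m : Vert n → ℕ), F u m ≠ 0 → i + ∑ v, m v = j ∧ IsFace r m

variable {k n} in
open Classical in
/-- The Koszul differential: `e_w` is replaced by `x_w`, modulo the ideal. -/
noncomputable def dK (i : ℕ) (F : Fn k n (i + 1)) : Fn k n i := fun u m =>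
  if IsFace r m then
    ∑ w : Vert n, (if m w = 0 then 0 else F (Fin.cons w u) (m - Pi.single w 1)) else 0

variable {k n} in
/-- Cycles of homological degree `i` and degree `j`. -/
def IsCycle : (i j : ℕ) → Fn k n i → Prop
  | 0, j, F => IsChain r 0 j F
  | i + 1, j, F => IsChain r (i + 1) j F ∧ dK r i F = 0

variable {k n} in
/-- Boundaries. -/
def IsBoundary (i j : ℕ) (F : Fn k n i) : Prop :=
  ∃ G : Fn k n (i + 1), IsChain r (i + 1) j G ∧ dK r i G = F

variable {k n} in
/-- The permutation `g` of the vertices sends `e_v` to `e_(g v)` and `x_v` to `x_(g v)`. -/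
def moveFn (g : Equiv.Perm (Vert n)) (i : ℕ) (F : Fn k n i) : Fn k n i :=
  fun u m => F (g.symm ∘ u) (m ∘ g)

end

section
variable {n : ℕ}

/-- The signed permutation given by the coordinate permutation `σ` and the flips `e`. -/
def signed (σ : Equiv.Perm (Fin n)) (e : Fin n → Bool) : Equiv.Perm (Vert n) where
  toFun v := fun a => xor (v (σ.symm a)) (e a)
  invFun v := fun a => xor (v (σ a)) (e (σ a))
  left_inv v := by funext a; simp
  right_inv v := by funext a; simp

/-- `σ` acting on the subsets of `{0, ..., n-1}` with at most `s` elements. -/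
def subsetPerm (σ : Equiv.Perm (Fin n)) (s : ℕ) :
    Equiv.Perm {B : Finset (Fin n) // B.card ≤ s} where
  toFun B := ⟨B.1.map σ.toEmbedding, by rw [Finset.card_map]; exact B.2⟩
  invFun B := ⟨B.1.map σ.symm.toEmbedding, by rw [Finset.card_map]; exact B.2⟩
  left_inv B := by
    apply Subtype.ext
    simp [Finset.map_map]
  right_inv B := by
    apply Subtype.ext
    simp [Finset.map_map]

/-- The product over all cycles of `π` (fixed points included) of `1 - (-X)^l`, `l` the length. -/
noncomputable def cyclePoly {D : Type*} [Fintype D] [DecidableEq D] (π : Equiv.Perm D) :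
    Polynomial ℤ :=
  (π.partition.parts.map fun l => 1 - (-Polynomial.X) ^ l).prod

end

end Pool.Agent.Helper7.BC.Koszul
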