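import Pool.Agent.Helper7.BC.Koszul
import Pool.Agent.Helper7.BC.Defs

/-! Closure properties of Koszul cycles and boundaries (from Defs.lean). -/

namespace Pool.Agent.Helper7.BC.Koszul

open Finset

variable {k : Type*} [Field k] {n r : ℕ}

theorem isCycle_iff (i j : ℕ) (F : Fn k n i) :
    IsCycle r i j F ↔ (show Fun k n i from F) ∈ Cycles k n r i j := by
  cases i with
  | zero => exact Iff.rfl
  | succ i => exact Iff.rfl

theorem isBoundary_iff (i j : ℕ) (F : Fn k n i) :
    IsBoundary r i j F ↔ (show Fun k n i from F) ∈ Bdry k n r i j := Iff.rfl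

theorem cycle_add (i j : ℕ) {F G : Fn k n i} (hF : IsCycle r i j F) (hG : IsCycle r i j G) :
    IsCycle r i j (F + G) :=
  (isCycle_iff i j _).2 ((Cycles k n r i j).add_mem ((isCycle_iff i j F).1 hF)
    ((isCycle_iff i j G).1 hG))

theorem cycle_zero (i j : ℕ) : IsCycle r i j (0 : Fn k n i) :=
  (isCycle_iff i j _).2 (Cycles k n r i j).zero_mem

theorem cycle_smul (i j : ℕ) (c : k) {F : Fn k n i} (hF : IsCycle r i j F) :
    IsCycle r i j (c • F) :=
  (isCycle_iff i j _).2 ((Cycles k n r i j).smul_mem c ((isCycle_iff i j F).1 hF))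

theorem boundary_add (i j : ℕ) {F G : Fn k n i} (hF : IsBoundary r i j F)
    (hG : IsBoundary r i j G) : IsBoundary r i j (F + G) :=
  (Bdry k n r i j).add_mem hF hG

theorem boundary_zero (i j : ℕ) : IsBoundary r i j (0 : Fn k n i) :=
  (Bdry k n r i j).zero_mem

theorem boundary_smul (i j : ℕ) (c : k) {F : Fn k n i} (hF : IsBoundary r i j F) :
    IsBoundary r i j (c • F) :=
  (Bdry k n r i j).smul_mem c hF

theorem cycle_move (g : Equiv.Perm (Vert n))
    (hg : ∀ a b, hammingDist (g a) (g b) = hammingDist a b) (i j : ℕ) {F : Fn k n i}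
    (hF : IsCycle r i j F) : IsCycle r i j (moveFn g i F) :=
  (isCycle_iff i j _).2 (act_cycles k r g hg i j F ((isCycle_iff i j F).1 hF))

theorem boundary_move (g : Equiv.Perm (Vert n))
    (hg : ∀ a b, hammingDist (g a) (g b) = hammingDist a b) (i j : ℕ) {F : Fn k n i}
    (hF : IsBoundary r i j F) : IsBoundary r i j (moveFn g i F) :=
  act_bdry k r g hg i j F hF

theorem signed_isometry (σ : Equiv.Perm (Fin n)) (e : Fin n → Bool) (a b : Vert n) :
    hammingDist (signed σ e a) (signed σ e b) = hammingDist a b :=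
  BC.signed_dist σ e a b

end Pool.Agent.Helper7.BC.Koszul
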