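import Pool.Agent.Helper7.BC.KoszulLem

/-! Tor and the Betti characters. -/

namespace Pool.Agent.Helper7.BC.Koszul

section
variable (k : Type*) [Field k] (n r : ℕ)

/-- The submodule of cycles. -/
def cycSub (i j : ℕ) : Submodule k (Fn k n i) where
  carrier := {F | IsCycle r i j F}
  add_mem' := cycle_add i j
  zero_mem' := cycle_zero i j
  smul_mem' := cycle_smul i j

/-- The space of cycles. -/
def Cyc (i j : ℕ) : Type _ := ↥(cycSub k n r i j)

instance cycGroup (i j : ℕ) : AddCommGroup (Cyc k n r i j) :=
  Submodule.addCommGroup (cycSub k n r i j)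

instance cycModule (i j : ℕ) : Module k (Cyc k n r i j) :=
  Submodule.module (cycSub k n r i j)

/-- The boundaries among the cycles. -/
def bdSub (i j : ℕ) : Submodule k (Cyc k n r i j) where
  carrier := {F | IsBoundary r i j F.1}
  add_mem' := boundary_add i j
  zero_mem' := boundary_zero i j
  smul_mem' c _ := boundary_smul i j c

/-- The degree `j` part of `Tor_i (k[x]/I, k)`: cycles modulo boundaries. -/
def Tor (i j : ℕ) : Type _ := Cyc k n r i j ⧸ bdSub k n r i j

instance torGroup (i j : ℕ) : AddCommGroup (Tor k n r i j) :=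
  Submodule.Quotient.addCommGroup (bdSub k n r i j)

instance torModule (i j : ℕ) : Module k (Tor k n r i j) :=
  Submodule.Quotient.module (bdSub k n r i j)

variable {n} in
/-- The action of `g` on cycles. -/
def moveCyc (g : Equiv.Perm (Vert n)) (hg : ∀ a b, hammingDist (g a) (g b) = hammingDist a b)
    (i j : ℕ) : Cyc k n r i j →ₗ[k] Cyc k n r i j where
  toFun F := ⟨moveFn g i F.1, cycle_move g hg i j F.2⟩
  map_add' _ _ := rfl
  map_smul' _ _ := rfl

variable {n} in
/-- The action of `g` on Tor. -/
def moveTor (g : Equiv.Perm (Vert n)) (hg : ∀ a b, hammingDist (g a) (g b) = hammingDist a b)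
    (i j : ℕ) : Tor k n r i j →ₗ[k] Tor k n r i j :=
  Submodule.mapQ (bdSub k n r i j) (bdSub k n r i j) (moveCyc k r g hg i j)
    (fun _ h => boundary_move g hg i j h)

end

/-- The Betti character `χ_(i,j)` at the signed permutation `(σ, e)`. -/
noncomputable def chi (k : Type*) [Field k] (n r i j : ℕ) (σ : Equiv.Perm (Fin n))
    (e : Fin n → Bool) : k :=
  LinearMap.trace k (Tor k n r i j) (moveTor k r (signed σ e) (signed_isometry σ e) i j)

end Pool.Agent.Helper7.BC.Koszul
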