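import Pool.Agent.Helper7.BC.Base

/-! [BC-3] `psi` is a projection of `ZZ` onto `AA` with kernel `BB`, when `Good n r i`.

Let `f ∈ ZZ`: (H1) `f (w ∘ swap a b) = - f w` for `a, b ≠ 0`, `a ≠ b`; (H2) `f (w ∘ swap 0 a) = - f w` if
`a ≠ 0`, `d (w 0, w a) ≤ r`.
(0) If `w` is not injective, `f w = 0`: `w a = w b`, `a ≠ b`: `w ∘ swap a b = w`; use (H1) if `a, b ≠ 0`, (H2)
    (distance 0) if one is 0; the characteristic is 0. (`w ∘ swap 0 c` is then not injective either.)
(1) GRAPH: for `w` injective let `G` be the graph (or relation) on `Fin (i+1)`: `a ~ b` iff `d (w a, w b) ≤ r`.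
    Put `h a = - f (w ∘ swap 0 a)` for `a ≠ 0` and `h 0 = f w`. Then `h a = h b` if `a ~ b`:
    for `a = 0` this is (H2); for `a, b ≠ 0`, `a ≠ b`: apply (H2) to `w' = w ∘ swap 0 a` and `b` (`w' 0 = w a`,
    `w' b = w b`): `f (w ∘ swap 0 a ∘ swap 0 b) = - f w'`, and `swap 0 a * swap 0 b = swap 0 b * swap a b`, so by
    (H1) the left side is `- f (w ∘ swap 0 b)`. Hence `h` is constant on connected components
    (`Relation.ReflTransGen` or `SimpleGraph.Reachable`).
(2) If `C` is the component of `c` and is not everything, `w '' C` and `w '' Cᶜ` are far apart (all distances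
    `> r`), nonempty, with `i + 1` elements together: by `Good` (second clause) `C = {c}` or `Cᶜ = {d}`.
(3) STAR (`d (w 0, w a) > r` for all `a ≠ 0`), `w` injective: `h` is constant on `{a ≠ 0}`. Otherwise there are
    `a, b ≠ 0` with `b` not in the component `C` of `a`; `0` is not in `C` either (0 is isolated); so `C = {a}` by
    (2) (`Cᶜ` contains `0, b`): `w a` is far from all others, and so is `w 0`; then `{w 0, w a}` and the rest
    (`i - 1` elements) are far apart: for `i ≥ 3` this contradicts the second clause of `Good` (`2 + (i-1) = i+1`),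
    for `i = 2` the third clause for `w 0, w 1, w 2`.
`psi_mem`: `psi f` vanishes off stars by definition. `w` star, `a, b ≠ 0`: `w ∘ swap a b` is a star. If `w` is
    not injective everything is 0 by (0). Otherwise `psi f w = f w + f (w ∘ swap 0 1) = h 0 - h 1` and, if
    `1 ∉ {a, b}`, `swap a b * swap 0 1 = swap 0 1 * swap a b` and (H1); if `a = 1`:
    `swap 1 b * swap 0 1 = swap 0 b * swap 1 b`, so `f (w ∘ swap 1 b ∘ swap 0 1) = - f (w ∘ swap 0 b) =
    - f (w ∘ swap 0 1)` by (H1) and (3).
`mem_BB_of_psi`: to show `f (w ∘ swap 0 a) = - f w` for all `a ≠ 0`: `w` not injective: (0). If `a` is in the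
    component `C` of 0: (1). Otherwise by (2) `C = {0}` or `Cᶜ = {a}`. If `C = {0}`, `w` is a star, so
    `psi f w = 0` and (3) give it. If `Cᶜ = {a}`, `w ∘ swap 0 a` is a star; apply the previous case to it.
`psi_BB`: clear, `swap 0 1` with `0 ≠ 1` (as `i ≥ 1`). `AA_le_ZZ`: (H2): if `d (w 0, w a) ≤ r` then neither `w` nor
    `w ∘ swap 0 a` is a star, both values are 0.
`psi_AA`: `w` star; to show `f (w ∘ swap 0 1) = 0`. If `w ∘ swap 0 1` is not a star: clear. If both are stars: `w`
    injective: `w 0` and `w 1` are far from each other and from the rest: contradiction as in (3).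
    `w` not injective: (0) applies to `f ∈ ZZ`. -/

namespace Pool.Agent.Helper7.BC

open Finset

variable {k : Type*} [Field k] [CharZero k] {n r i : ℕ}

omit [CharZero k] in
private theorem sp_comp_swap {w : Fin (i + 1) → Vtx n} {a b : Fin (i + 1)} (h : w a = w b) :
    w ∘ Equiv.swap a b = w := by
  funext x
  rw [Function.comp_apply, Equiv.swap_apply_def]
  split_ifs with h1 h2
  · rw [h1, h]
  · rw [h2, h]
  · rfl

private theorem sp_self {x : k} (h : x = -x) : x = 0 := by
  have h1 : (2 : k) * x = 0 := by linear_combination h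
  rcases mul_eq_zero.1 h1 with h2 | h2
  · exact absurd h2 two_ne_zero
  · exact h2

/-- step (0) -/
private theorem sp_not_inj {f : WFun k n i} (hf : f ∈ ZZ k n r i) {w : Fin (i + 1) → Vtx n}
    (hw : ¬ Function.Injective w) : f w = 0 := by
  have key : ∀ a b : Fin (i + 1), w a = w b → b ≠ 0 → a ≠ b → f w = 0 := by
    intro a b hab hb hne
    by_cases ha : a = 0
    · subst ha
      have h1 := hf.2 w b hb (by rw [hab, hammingDist_self]; exact Nat.zero_le r)
      rw [sp_comp_swap hab] at h1
      exact sp_self h1
    · have h1 := hf.1 w a b ha hb hne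
      rw [sp_comp_swap hab] at h1
      exact sp_self h1
  unfold Function.Injective at hw
  push Not at hw
  obtain ⟨a, b, hab, hne⟩ := hw
  by_cases hb : b = 0
  · exact key b a hab.symm (fun h => hne (h.trans hb.symm)) (fun h => hne h.symm)
  · exact key a b hab hb hne

omit [CharZero k] in
private theorem sp_inj_comp {w : Fin (i + 1) → Vtx n} (a b : Fin (i + 1)) :
    Function.Injective (w ∘ Equiv.swap a b) ↔ Function.Injective w :=
  (Equiv.swap a b).injective_comp w

/-- nearness -/
private def spR (r : ℕ) (w : Fin (i + 1) → Vtx n) (a b : Fin (i + 1)) : Prop :=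
  hammingDist (w a) (w b) ≤ r

private theorem spR_symm {w : Fin (i + 1) → Vtx n} {a b : Fin (i + 1)} (h : spR r w a b) :
    spR r w b a := by
  unfold spR at h ⊢
  rw [hammingDist_comm]
  exact h

/-- the function `h` of step (1) -/
private def spH (f : WFun k n i) (w : Fin (i + 1) → Vtx n) (a : Fin (i + 1)) : k :=
  if a = 0 then f w else - f (w ∘ Equiv.swap 0 a)

omit [CharZero k] in
private theorem spH_near {f : WFun k n i} (hf : f ∈ ZZ k n r i) {w : Fin (i + 1) → Vtx n}
    {a b : Fin (i + 1)} (h : spR r w a b) : spH f w a = spH f w b := by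
  have h0 : ∀ b : Fin (i + 1), b ≠ 0 → spR r w 0 b → f w = - f (w ∘ Equiv.swap 0 b) := by
    intro b hb hR
    rw [hf.2 w b hb hR, neg_neg]
  unfold spH
  by_cases ha : a = 0
  · by_cases hb : b = 0
    · rw [if_pos ha, if_pos hb]
    · rw [if_pos ha, if_neg hb]
      rw [ha] at h
      exact h0 b hb h
  · by_cases hb : b = 0
    · rw [if_neg ha, if_pos hb]
      rw [hb] at h
      exact (h0 a ha (spR_symm h)).symm
    · rw [if_neg ha, if_neg hb]
      by_cases hab : a = b
      · rw [hab]
      · have h1 := hf.2 (w ∘ Equiv.swap 0 a) b hb (by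
          have e1 : (w ∘ Equiv.swap 0 a) 0 = w a := by
            rw [Function.comp_apply, Equiv.swap_apply_left]
          have e2 : (w ∘ Equiv.swap 0 a) b = w b := by
            rw [Function.comp_apply, Equiv.swap_apply_of_ne_of_ne hb (fun h => hab h.symm)]
          rw [e1, e2]
          exact h)
        have h2 : (w ∘ Equiv.swap 0 a) ∘ Equiv.swap 0 b = (w ∘ Equiv.swap 0 b) ∘ Equiv.swap b a := by
          have e3 : Equiv.swap 0 a * Equiv.swap 0 b = Equiv.swap 0 b * Equiv.swap b a := by
            rw [Equiv.swap_mul_eq_mul_swap, Equiv.swap_inv, Equiv.swap_apply_left,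
              Equiv.swap_apply_of_ne_of_ne ha hab]
          have e4 := congrArg (fun p : Equiv.Perm (Fin (i + 1)) => w ∘ (p : Fin (i + 1) → Fin (i + 1))) e3
          exact e4
        rw [h2, hf.1 (w ∘ Equiv.swap 0 b) b a hb ha (fun h => hab h.symm)] at h1
        rw [← h1]

omit [CharZero k] in
private theorem spH_conn {f : WFun k n i} (hf : f ∈ ZZ k n r i) {w : Fin (i + 1) → Vtx n}
    {a b : Fin (i + 1)} (h : Relation.ReflTransGen (spR r w) a b) : spH f w a = spH f w b := by
  induction h with
  | refl => rfl
  | tail _ h2 ih => exact ih.trans (spH_near hf h2)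

/-- step (2) -/
private theorem sp_split (hG : Good n r i) {w : Fin (i + 1) → Vtx n} (hw : Function.Injective w)
    (P : Fin (i + 1) → Prop) (hP : ∀ a b, P a → spR r w a b → P b) {a₀ b₀ : Fin (i + 1)}
    (ha₀ : P a₀) (hb₀ : ¬ P b₀) : (∀ a, P a → a = a₀) ∨ (∀ b, ¬ P b → b = b₀) := by
  classical
  by_contra hcon
  rw [not_or] at hcon
  obtain ⟨h1, h2⟩ := hcon
  push Not at h1 h2
  obtain ⟨a₁, ha₁, hne₁⟩ := h1
  obtain ⟨b₁, hb₁, hne₂⟩ := h2
  have hcA : 1 < (univ.filter P).card :=
    Finset.one_lt_card.2 ⟨a₁, by simp [ha₁], a₀, by simp [ha₀], hne₁⟩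
  have hcB : 1 < (univ.filter fun x => ¬ P x).card :=
    Finset.one_lt_card.2 ⟨b₁, by simp [hb₁], b₀, by simp [hb₀], hne₂⟩
  refine hG.2.1 ((univ.filter P).image w) ((univ.filter fun x => ¬ P x).image w) ?_ ?_ ?_ ?_
  · intro x hx y hy
    rw [Finset.mem_image] at hx hy
    obtain ⟨a, ha, rfl⟩ := hx
    obtain ⟨b, hb, rfl⟩ := hy
    rw [Finset.mem_filter] at ha hb
    by_contra hnear
    push Not at hnear
    exact hb.2 (hP a b ha.2 hnear)
  · rw [Finset.card_image_of_injective _ hw]
    exact hcA
  · rw [Finset.card_image_of_injective _ hw]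
    exact hcB
  · rw [Finset.card_image_of_injective _ hw, Finset.card_image_of_injective _ hw,
      Finset.card_filter_add_card_filter_not, Finset.card_univ, Fintype.card_fin]

/-- two isolated points are impossible -/
private theorem sp_two (hG : Good n r i) {w : Fin (i + 1) → Vtx n} (hw : Function.Injective w)
    (hs : IsStar r w) {a : Fin (i + 1)} (ha : a ≠ 0) (hfar : ∀ x, spR r w a x → x = a) : False := by
  classical
  have hex : ∃ b : Fin (i + 1), b ≠ 0 ∧ b ≠ a := by
    by_contra hcon
    push Not at hcon
    have hsub : (univ : Finset (Fin (i + 1))) ⊆ {0, a} := by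
      intro x _
      rw [Finset.mem_insert, Finset.mem_singleton]
      by_cases hx : x = 0
      · exact Or.inl hx
      · exact Or.inr (hcon x hx)
    have h1 := Finset.card_le_card hsub
    rw [Finset.card_univ, Fintype.card_fin] at h1
    have h2 := Finset.card_le_two (a := (0 : Fin (i + 1))) (b := a)
    have h3 := hG.1
    omega
  obtain ⟨b, hb0, hba⟩ := hex
  have h0 : ∀ x, spR r w 0 x → x = 0 := by
    intro x hx
    by_contra hne
    have := hs x hne
    unfold spR at hx
    omega
  rcases sp_split hG hw (fun x => x = 0 ∨ x = a) (by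
      rintro x y (rfl | rfl) hxy
      · exact Or.inl (h0 y hxy)
      · exact Or.inr (hfar y hxy)) (a₀ := 0) (b₀ := b) (Or.inl rfl)
      (by rintro (h | h); exacts [hb0 h, hba h]) with h1 | h1
  · exact ha (h1 a (Or.inr rfl))
  · have hi2 : i = 2 := by
      have hsub : (univ : Finset (Fin (i + 1))) ⊆ {0, a, b} := by
        intro x _
        rw [Finset.mem_insert, Finset.mem_insert, Finset.mem_singleton]
        by_cases hx : x = 0 ∨ x = a
        · rcases hx with hx | hx
          · exact Or.inl hx
          · exact Or.inr (Or.inl hx)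
        · exact Or.inr (Or.inr (h1 x hx))
      have h2 := Finset.card_le_card hsub
      rw [Finset.card_univ, Fintype.card_fin] at h2
      have h3 := Finset.card_le_three (a := (0 : Fin (i + 1))) (b := a) (c := b)
      have h4 := hG.1
      omega
    refine hG.2.2 hi2 (w 0) (w a) (w b) ⟨hs a ha, ?_, hs b hb0⟩
    by_contra hnear
    push Not at hnear
    exact hba (hfar b hnear)

omit [CharZero k] in
/-- step (3) -/
private theorem sp_star (hG : Good n r i) {f : WFun k n i} (hf : f ∈ ZZ k n r i)
    {w : Fin (i + 1) → Vtx n} (hw : Function.Injective w) (hs : IsStar r w) {a b : Fin (i + 1)}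
    (ha : a ≠ 0) (hb : b ≠ 0) : f (w ∘ Equiv.swap 0 a) = f (w ∘ Equiv.swap 0 b) := by
  by_cases hc : Relation.ReflTransGen (spR r w) a b
  · have h1 := spH_conn hf hc
    unfold spH at h1
    rw [if_neg ha, if_neg hb] at h1
    exact neg_inj.1 h1
  · exfalso
    have h0 : ∀ x, Relation.ReflTransGen (spR r w) a x → x ≠ 0 := by
      intro x hx
      induction hx with
      | refl => exact ha
      | tail _ h2 ih =>
        rename_i y z _
        intro hz
        rw [hz] at h2
        have h3 := hs y ih
        have h4 := spR_symm h2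
        unfold spR at h4
        omega
    rcases sp_split hG hw (Relation.ReflTransGen (spR r w) a) (fun x y hx hxy => hx.tail hxy)
      (a₀ := a) (b₀ := b) Relation.ReflTransGen.refl hc with h1 | h1
    · exact sp_two hG hw hs ha fun x hx => h1 x (Relation.ReflTransGen.single hx)
    · exact hb (h1 0 fun h => h0 0 h rfl).symm

private theorem sp_isStar_swap {w : Fin (i + 1) → Vtx n} {a b : Fin (i + 1)} (ha : a ≠ 0)
    (hb : b ≠ 0) (h : IsStar r w) : IsStar r (w ∘ Equiv.swap a b) := by
  intro x hx
  rw [Function.comp_apply, Function.comp_apply,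
    Equiv.swap_apply_of_ne_of_ne (Ne.symm ha) (Ne.symm hb)]
  apply h
  intro h0
  apply hx
  have h1 := congrArg (Equiv.swap a b) h0
  rw [Equiv.swap_apply_self, Equiv.swap_apply_of_ne_of_ne (Ne.symm ha) (Ne.symm hb)] at h1
  exact h1

private theorem sp_swap_swap {w : Fin (i + 1) → Vtx n} (a b : Fin (i + 1)) :
    (w ∘ Equiv.swap a b) ∘ Equiv.swap a b = w := by
  funext x
  rw [Function.comp_apply, Function.comp_apply, Equiv.swap_apply_self]

private theorem sp_one_ne (hi : 2 ≤ i) : (1 : Fin (i + 1)) ≠ 0 := by
  obtain ⟨m, rfl⟩ : ∃ m, i = m + 2 := ⟨i - 2, by omega⟩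
  intro h
  have h1 := congrArg Fin.val h
  simp at h1

open Classical in
omit [CharZero k] in
private theorem sp_psi_star {f : WFun k n i} {w : Fin (i + 1) → Vtx n} (h : IsStar r w) :
    psi k n r i f w = f w + f (w ∘ Equiv.swap 0 1) := by
  change (if IsStar r w then f w + f (w ∘ Equiv.swap 0 1) else 0) = _
  rw [if_pos h]

open Classical in
omit [CharZero k] in
private theorem sp_psi_not {f : WFun k n i} {w : Fin (i + 1) → Vtx n} (h : ¬ IsStar r w) :
    psi k n r i f w = 0 := by
  change (if IsStar r w then f w + f (w ∘ Equiv.swap 0 1) else 0) = _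
  rw [if_neg h]

theorem psi_mem (hG : Good n r i) (f : WFun k n i) (hf : f ∈ ZZ k n r i) :
    psi k n r i f ∈ AA k n r i := by
  have h10 := sp_one_ne hG.1
  refine ⟨?_, fun w h => sp_psi_not h⟩
  intro w a b ha hb hab
  by_cases hs : IsStar r w
  · have hs' := sp_isStar_swap ha hb hs
    rw [sp_psi_star hs, sp_psi_star hs']
    by_cases hw : Function.Injective w
    · have hw' : Function.Injective (w ∘ Equiv.swap a b) := (sp_inj_comp a b).2 hw
      have h1 := sp_star hG hf hw' hs' h10 ha
      have h2 : (w ∘ Equiv.swap a b) ∘ Equiv.swap 0 a = (w ∘ Equiv.swap 0 b) ∘ Equiv.swap a b := by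
        have e3 : Equiv.swap a b * Equiv.swap 0 a = Equiv.swap 0 b * Equiv.swap a b := by
          rw [Equiv.mul_swap_eq_swap_mul, Equiv.swap_apply_left,
            Equiv.swap_apply_of_ne_of_ne (Ne.symm ha) (Ne.symm hb)]
        have e4 := congrArg (fun p : Equiv.Perm (Fin (i + 1)) => w ∘ (p : Fin (i + 1) → Fin (i + 1))) e3
        exact e4
      rw [h1, h2, hf.1 (w ∘ Equiv.swap 0 b) a b ha hb hab, hf.1 w a b ha hb hab,
        sp_star hG hf hw hs hb h10]
      ring
    · have z1 : ∀ v : Fin (i + 1) → Vtx n, ¬ Function.Injective v → f v = 0 :=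
        fun v hv => sp_not_inj hf hv
      have n1 : ¬ Function.Injective (w ∘ Equiv.swap a b) := fun h => hw ((sp_inj_comp a b).1 h)
      have n2 : ¬ Function.Injective (w ∘ Equiv.swap 0 1) := fun h => hw ((sp_inj_comp 0 1).1 h)
      have n3 : ¬ Function.Injective ((w ∘ Equiv.swap a b) ∘ Equiv.swap 0 1) :=
        fun h => n1 ((sp_inj_comp 0 1).1 h)
      rw [z1 _ hw, z1 _ n1, z1 _ n2, z1 _ n3]
      ring
  · have hs' : ¬ IsStar r (w ∘ Equiv.swap a b) := by
      intro h
      apply hs
      have h1 := sp_isStar_swap ha hb h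
      rw [sp_swap_swap] at h1
      exact h1
    rw [sp_psi_not hs, sp_psi_not hs', neg_zero]

theorem mem_BB_of_psi (hG : Good n r i) (f : WFun k n i) (hf : f ∈ ZZ k n r i)
    (h : psi k n r i f = 0) : f ∈ BB k n i := by
  have h10 := sp_one_ne hG.1
  -- stars
  have hstar : ∀ w : Fin (i + 1) → Vtx n, Function.Injective w → IsStar r w →
      ∀ b, b ≠ 0 → f (w ∘ Equiv.swap 0 b) = - f w := by
    intro w hw hs b hb
    have h1 := congrFun h w
    rw [sp_psi_star hs] at h1
    rw [sp_star hG hf hw hs hb h10]
    have h2 : f w + f (w ∘ Equiv.swap 0 1) = 0 := h1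
    linear_combination h2
  have key : ∀ (w : Fin (i + 1) → Vtx n) (b : Fin (i + 1)), b ≠ 0 →
      f (w ∘ Equiv.swap 0 b) = - f w := by
    intro w b hb
    by_cases hw : Function.Injective w
    · by_cases hc : Relation.ReflTransGen (spR r w) 0 b
      · have h1 := spH_conn hf hc
        unfold spH at h1
        rw [if_pos rfl, if_neg hb] at h1
        rw [h1, neg_neg]
      · rcases sp_split hG hw (Relation.ReflTransGen (spR r w) 0) (fun x y hx hxy => hx.tail hxy)
          (a₀ := 0) (b₀ := b) Relation.ReflTransGen.refl hc with h1 | h1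
        · refine hstar w hw ?_ b hb
          intro x hx
          by_contra hnear
          push Not at hnear
          exact hx (h1 x (Relation.ReflTransGen.single hnear))
        · have hw' : Function.Injective (w ∘ Equiv.swap 0 b) := (sp_inj_comp 0 b).2 hw
          have hfar : ∀ y, y ≠ b → r < hammingDist (w b) (w y) := by
            intro y hy
            by_contra hnear
            push Not at hnear
            have h2 : Relation.ReflTransGen (spR r w) 0 y := by
              by_contra h3
              exact hy (h1 y h3)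
            exact hc (h2.tail (spR_symm hnear))
          have hs' : IsStar r (w ∘ Equiv.swap 0 b) := by
            intro x hx
            rw [Function.comp_apply, Function.comp_apply, Equiv.swap_apply_left]
            apply hfar
            intro h2
            apply hx
            have h3 := congrArg (Equiv.swap 0 b) h2
            rw [Equiv.swap_apply_self, Equiv.swap_apply_right] at h3
            exact h3
          have h2 := hstar _ hw' hs' b hb
          rw [sp_swap_swap] at h2
          rw [h2, neg_neg]
    · have n2 : ¬ Function.Injective (w ∘ Equiv.swap 0 b) := fun h => hw ((sp_inj_comp 0 b).1 h)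
      rw [sp_not_inj hf hw, sp_not_inj hf n2, neg_zero]
  intro w a b hab
  by_cases ha : a = 0
  · subst ha
    exact key w b (Ne.symm hab)
  · by_cases hb : b = 0
    · subst hb
      rw [Equiv.swap_comm]
      exact key w a ha
    · exact hf.1 w a b ha hb hab

theorem psi_BB (hi : 2 ≤ i) (f : WFun k n i) (hf : f ∈ BB k n i) : psi k n r i f = 0 := by
  funext w
  by_cases hs : IsStar r w
  · rw [sp_psi_star hs, hf w 0 1 (Ne.symm (sp_one_ne hi))]
    exact add_neg_cancel _
  · exact sp_psi_not hs

theorem AA_le_ZZ : AA k n r i ≤ ZZ k n r i := by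
  intro f hf
  refine ⟨hf.1, ?_⟩
  intro w a ha hd
  have h1 : ¬ IsStar r w := by
    intro hs
    have := hs a ha
    omega
  have h2 : ¬ IsStar r (w ∘ Equiv.swap 0 a) := by
    intro hs
    have := hs a ha
    rw [Function.comp_apply, Function.comp_apply, Equiv.swap_apply_left,
      Equiv.swap_apply_right, hammingDist_comm] at this
    omega
  rw [hf.2 w h1, hf.2 _ h2, neg_zero]

theorem psi_AA (hG : Good n r i) (f : WFun k n i) (hf : f ∈ AA k n r i) :
    psi k n r i f = f := by
  have h10 := sp_one_ne hG.1
  funext w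
  by_cases hs : IsStar r w
  · rw [sp_psi_star hs]
    have hz : f (w ∘ Equiv.swap 0 1) = 0 := by
      by_cases hs' : IsStar r (w ∘ Equiv.swap 0 1)
      · by_cases hw : Function.Injective w
        · exfalso
          refine sp_two hG hw hs h10 ?_
          intro x hx
          by_contra hne
          have h1 : Equiv.swap 0 1 x ≠ 0 := by
            intro h0
            apply hne
            have h2 := congrArg (Equiv.swap (0 : Fin (i + 1)) 1) h0
            rw [Equiv.swap_apply_self, Equiv.swap_apply_left] at h2
            exact h2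
          have h3 := hs' _ h1
          rw [Function.comp_apply, Function.comp_apply, Equiv.swap_apply_self,
            Equiv.swap_apply_left] at h3
          unfold spR at hx
          omega
        · exact sp_not_inj (AA_le_ZZ hf) fun h => hw ((sp_inj_comp 0 1).1 h)
      · exact hf.2 _ hs'
    rw [hz, add_zero]
  · rw [sp_psi_not hs, hf.2 w hs]

end Pool.Agent.Helper7.BC
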